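import Mathlib

/-!
# An intermediate value principle for maximal cliques
-/

set_option autoImplicit false

namespace Pool.Agent.H759R3.GP

variable {V : Type*} [Fintype V] [DecidableEq V]

/-- every clique lies in a maximal clique -/
theorem exists_maximal (G : SimpleGraph V) (s : Finset V) (hs : G.IsClique (s : Set V)) :
    ∃ M : Finset V, G.IsClique (M : Set V) ∧ s ⊆ M ∧
      ∀ t : Finset V, G.IsClique (t : Set V) → M ⊆ t → t = M := by
  classical
  let P : Finset (Finset V) := Finset.univ.filter fun t => G.IsClique (t : Set V) ∧ s ⊆ t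
  have hP : P.Nonempty := ⟨s, by simp [P, hs]⟩
  obtain ⟨M, hM, hmax⟩ := Finset.exists_max_image P Finset.card hP
  simp only [P, Finset.mem_filter, Finset.mem_univ, true_and] at hM hmax
  refine ⟨M, hM.1, hM.2, fun t ht hMt => ?_⟩
  exact (Finset.eq_of_subset_of_card_le hMt (hmax t ⟨ht, hM.2.trans hMt⟩)).symm

/-- Let `I` be a clique with `q` elements and `K` a clique with more than `20 q` elements.
If every clique `C` with more than `20 q` elements has the property that each of its vertices
outside `I` has at least `b ≥ 2 q / 19` neighbours in `I \ C`, then some maximal clique has size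
between `2 q` and `20 q`. -/
theorem exists_middle (G : SimpleGraph V) [DecidableRel G.Adj] (I K : Finset V) (q : ℕ)
    (hq : 0 < q) (hI : G.IsClique (I : Set V)) (hIq : I.card = q)
    (hK : G.IsClique (K : Set V)) (hKq : 20 * q < K.card)
    (h : ∀ C : Finset V, G.IsClique (C : Set V) → 20 * q < C.card →
      ∃ b : ℕ, 2 * q ≤ 19 * b ∧ ∀ y ∈ C \ I, b ≤ ((I \ C).filter fun x => G.Adj x y).card) :
    ∃ s : Finset V, G.IsClique (s : Set V) ∧
      (∀ t : Finset V, G.IsClique (t : Set V) → s ⊆ t → t = s) ∧
      2 * q ≤ s.card ∧ s.card ≤ 20 * q := by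
  classical
  by_contra hcon
  push Not at hcon
  let P : Finset (Finset V) :=
    Finset.univ.filter fun t => G.IsClique (t : Set V) ∧ 20 * q < t.card
  have hP : P.Nonempty := ⟨K, by simp [P, hK, hKq]⟩
  obtain ⟨C, hC, hmax⟩ := Finset.exists_max_image P (fun t => (t ∩ I).card) hP
  simp only [P, Finset.mem_filter, Finset.mem_univ, true_and] at hC hmax
  obtain ⟨b, hb, hdeg⟩ := h C hC.1 hC.2
  -- every vertex of `I \ C` has few neighbours in `C \ I`
  have hfew : ∀ x ∈ I \ C, ((C \ I).filter fun y => G.Adj x y).card < 2 * q := by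
    intro x hx
    rw [Finset.mem_sdiff] at hx
    let s : Finset V := insert x (C.filter fun y => G.Adj x y)
    have hs : G.IsClique (s : Set V) := by
      simp only [s, Finset.coe_insert, SimpleGraph.isClique_insert]
      refine ⟨?_, ?_⟩
      · intro y hy z hz hyz
        simp only [Finset.coe_filter, Set.mem_setOf_eq] at hy hz
        exact hC.1 (Finset.mem_coe.2 hy.1) (Finset.mem_coe.2 hz.1) hyz
      · intro y hy _
        simp only [Finset.coe_filter, Set.mem_setOf_eq] at hy
        exact hy.2
    obtain ⟨M, hM1, hM2, hM3⟩ := exists_maximal G s hs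
    have hsub : insert x (C ∩ I) ⊆ M ∩ I := by
      intro y hy
      rw [Finset.mem_insert] at hy
      rcases hy with rfl | hy
      · exact Finset.mem_inter.2 ⟨hM2 (Finset.mem_insert_self _ _), hx.1⟩
      · rw [Finset.mem_inter] at hy
        refine Finset.mem_inter.2 ⟨hM2 (Finset.mem_insert_of_mem ?_), hy.2⟩
        refine Finset.mem_filter.2 ⟨hy.1, ?_⟩
        refine hI (Finset.mem_coe.2 hx.1) (Finset.mem_coe.2 hy.2) ?_
        rintro rfl
        exact hx.2 hy.1
    have hcard := Finset.card_le_card hsub
    rw [Finset.card_insert_of_notMem (fun hh => hx.2 (Finset.mem_inter.1 hh).1)] at hcard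
    have hMle : M.card ≤ 20 * q := by
      by_contra hlt
      push Not at hlt
      have := hmax M ⟨hM1, hlt⟩
      omega
    have hMlt : M.card < 2 * q := by
      by_contra hge
      push Not at hge
      have := hcon M hM1 hM3 hge
      omega
    refine lt_of_le_of_lt (Finset.card_le_card ?_) hMlt
    intro y hy
    rw [Finset.mem_filter, Finset.mem_sdiff] at hy
    exact hM2 (Finset.mem_insert_of_mem (Finset.mem_filter.2 ⟨hy.1.1, hy.2⟩))
  have hdc : ∑ x ∈ I \ C, ((C \ I).filter fun y => G.Adj x y).card =
      ∑ y ∈ C \ I, ((I \ C).filter fun x => G.Adj x y).card :=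
    Finset.sum_card_bipartiteAbove_eq_sum_card_bipartiteBelow (fun x y => G.Adj x y)
  have h1 : (C \ I).card * b ≤ ∑ y ∈ C \ I, ((I \ C).filter fun x => G.Adj x y).card := by
    rw [← smul_eq_mul, ← Finset.sum_const]
    exact Finset.sum_le_sum hdeg
  have h2 : ∑ x ∈ I \ C, ((C \ I).filter fun y => G.Adj x y).card ≤
      (I \ C).card * (2 * q - 1) := by
    rw [← smul_eq_mul, ← Finset.sum_const]
    refine Finset.sum_le_sum fun x hx => ?_
    have := hfew x hx
    omega
  have h3 : (I \ C).card ≤ q := by
    rw [← hIq]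
    exact Finset.card_le_card Finset.sdiff_subset
  have h4 : 19 * q ≤ (C \ I).card := by
    have := Finset.le_card_sdiff I C
    omega
  have h5 : 19 * q * b ≤ q * (2 * q - 1) := by
    calc 19 * q * b ≤ (C \ I).card * b := Nat.mul_le_mul_right _ h4
      _ ≤ _ := h1
      _ = _ := hdc.symm
      _ ≤ (I \ C).card * (2 * q - 1) := h2
      _ ≤ q * (2 * q - 1) := Nat.mul_le_mul_right _ h3
  have h6 : q * (2 * q) ≤ 19 * q * b := by
    calc q * (2 * q) ≤ q * (19 * b) := Nat.mul_le_mul_left _ hb
      _ = 19 * q * b := by ring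
  have h7 : q * (2 * q - 1) < q * (2 * q) := Nat.mul_lt_mul_of_pos_left (by omega) hq
  omega

end Pool.Agent.H759R3.GP
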