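import Pool.Agent.H759R3.Stepanov3
import Pool.Agent.H759R3.Extremal

/-!
# Cubes in `F_{q^3}` seen from `F_q`
-/

set_option autoImplicit false

namespace Pool.Agent.H759R3.GP

open Polynomial
open Pool.Agent.H759R3.Step3

/-- Cubes in a finite field with `3 M + 1` elements. -/
theorem cube_iff {F : Type*} [Field F] [Fintype F] (M : ℕ) (hM : 3 * M + 1 = Fintype.card F)
    {w : F} (hw : w ≠ 0) : (∃ z : F, z ^ 3 = w) ↔ w ^ M = 1 := by
  have hM0 : 0 < M := by
    rcases Nat.eq_zero_or_pos M with h | h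
    · subst h
      have := Fintype.one_lt_card (α := F)
      omega
    · exact h
  constructor
  · rintro ⟨z, rfl⟩
    have hz : z ≠ 0 := by
      rintro rfl
      exact hw (by simp)
    rw [← pow_mul]
    have h := FiniteField.pow_card_sub_one_eq_one z hz
    have h2 : Fintype.card F - 1 = 3 * M := by omega
    rwa [h2] at h
  · intro h
    obtain ⟨g, hg⟩ := IsCyclic.exists_generator (α := Fˣ)
    obtain ⟨k, hk⟩ := (Submonoid.mem_powers_iff _ _).1
      ((mem_powers_iff_mem_zpowers).2 (hg (Units.mk0 w hw)))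
    have horder : orderOf g = 3 * M := by
      rw [orderOf_eq_card_of_forall_mem_zpowers hg, Nat.card_units, Nat.card_eq_fintype_card]
      omega
    have h1 : g ^ (k * M) = 1 := by
      rw [pow_mul, hk]
      apply Units.ext
      simpa using h
    have h2 : 3 * M ∣ k * M := by
      rw [← horder]
      exact orderOf_dvd_of_pow_eq_one h1
    have h3 : 3 ∣ k := Nat.dvd_of_mul_dvd_mul_right hM0 h2
    obtain ⟨j, rfl⟩ := h3
    refine ⟨(g ^ j : Fˣ), ?_⟩
    rw [← Units.val_pow_eq_pow_val, ← pow_mul, mul_comm j 3, hk]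
    rfl

/-- The graph of cubes is symmetric. -/
theorem adj_iff {F : Type*} [Field F] (x y : F) :
    (SimpleGraph.fromRel (fun x y : F => ∃ z : F, z ^ 3 = x - y)).Adj x y ↔
      x ≠ y ∧ ∃ z : F, z ^ 3 = x - y := by
  rw [SimpleGraph.fromRel_adj]
  constructor
  · rintro ⟨h, h1 | ⟨z, hz⟩⟩
    · exact ⟨h, h1⟩
    · exact ⟨h, -z, by rw [Odd.neg_pow (by decide), hz]; ring⟩
  · rintro ⟨h, h1⟩
    exact ⟨h, Or.inl h1⟩

section

variable {F E : Type} [Field F] [Fintype F] [DecidableEq F] [Field E] [Fintype E] [DecidableEq E]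
  (ι : E →+* F) {q : ℕ} (hE : Fintype.card E = q) (hF : Fintype.card F = q ^ 3)

include ι hE in
theorem frob_sub (a b : F) : (a - b) ^ q = a ^ q - b ^ q := by
  obtain ⟨p, hp⟩ := CharP.exists E
  have := hp
  have : Fact p.Prime := ⟨CharP.char_is_prime E p⟩
  obtain ⟨n, -, hn⟩ := FiniteField.card E p
  have hpF : CharP F p := by
    exact charP_of_injective_ringHom ι.injective p
  rw [← hE, hn]
  exact sub_pow_char_pow _ _ _

include hE in
theorem frob_map (t : E) : (ι t) ^ q = ι t := by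
  rw [← map_pow, ← hE, FiniteField.pow_card]

include hE in
theorem mem_range_iff (z : F) : z ^ q = z ↔ ∃ t, ι t = z := by
  constructor
  · intro hz
    have hq1 : 1 < q := by rw [← hE]; exact Fintype.one_lt_card
    have hne : (X ^ q - X : F[X]) ≠ 0 := FiniteField.X_pow_card_sub_X_ne_zero F hq1
    have h1 : Finset.univ.image ι ⊆ (X ^ q - X : F[X]).roots.toFinset := by
      intro x hx
      obtain ⟨t, -, rfl⟩ := Finset.mem_image.1 hx
      rw [Multiset.mem_toFinset, mem_roots hne, IsRoot.def, eval_sub, eval_pow, eval_X,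
        frob_map ι hE, sub_self]
    have h2 : (X ^ q - X : F[X]).roots.toFinset.card ≤ (Finset.univ.image ι).card := by
      rw [Finset.card_image_of_injective _ ι.injective, Finset.card_univ, hE]
      refine (Multiset.toFinset_card_le _).trans ((card_roots' _).trans ?_)
      rw [FiniteField.X_pow_card_sub_X_natDegree_eq F hq1]
    have h3 := Finset.eq_of_subset_of_card_le h1 h2
    have h4 : z ∈ (X ^ q - X : F[X]).roots.toFinset := by
      rw [Multiset.mem_toFinset, mem_roots hne, IsRoot.def, eval_sub, eval_pow, eval_X, hz,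
        sub_self]
    rw [← h3] at h4
    obtain ⟨t, -, ht⟩ := Finset.mem_image.1 h4
    exact ⟨t, ht⟩
  · rintro ⟨t, rfl⟩
    exact frob_map ι hE t

include hE hF in
/-- the cubic polynomial over `E` with roots `y`, `y^q`, `y^(q^2)` -/
theorem exists_poly (y : F) : ∃ f : E[X], f.Monic ∧ f.natDegree = 3 ∧
    f.map ι = (X - C y) * (X - C (y ^ q)) * (X - C (y ^ (q ^ 2))) := by
  have hy3 : (y ^ (q ^ 2)) ^ q = y := by
    rw [← pow_mul, ← pow_succ, ← hF, FiniteField.pow_card]
  have hyq : (y ^ q) ^ q = y ^ (q ^ 2) := by rw [← pow_mul, sq]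
  have hadd : ∀ a b : F, (a + b) ^ q = a ^ q + b ^ q := by
    intro a b
    obtain ⟨p, hp⟩ := CharP.exists E
    have := hp
    have : Fact p.Prime := ⟨CharP.char_is_prime E p⟩
    obtain ⟨n, -, hn⟩ := FiniteField.card E p
    have hpF : CharP F p := charP_of_injective_ringHom ι.injective p
    rw [← hE, hn]
    exact add_pow_char_pow ..
  obtain ⟨e1, h1⟩ := (mem_range_iff ι hE (y + y ^ q + y ^ (q ^ 2))).1 (by
    rw [hadd, hadd, hyq, hy3]; ring)
  obtain ⟨e2, h2⟩ := (mem_range_iff ι hE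
      (y * y ^ q + y ^ q * y ^ (q ^ 2) + y ^ (q ^ 2) * y)).1 (by
    rw [hadd, hadd, mul_pow, mul_pow, mul_pow, hyq, hy3]; ring)
  obtain ⟨e3, h3⟩ := (mem_range_iff ι hE (y * y ^ q * y ^ (q ^ 2))).1 (by
    rw [mul_pow, mul_pow, hyq, hy3]; ring)
  have hmap : (X ^ 3 - C e1 * X ^ 2 + C e2 * X - C e3 : E[X]).map ι =
      (X - C y) * (X - C (y ^ q)) * (X - C (y ^ (q ^ 2))) := by
    simp only [Polynomial.map_sub, Polynomial.map_add, Polynomial.map_mul, Polynomial.map_pow,
      map_X, map_C, h1, h2, h3]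
    simp only [C_add, C_mul]
    ring
  have hmon : ((X - C y) * (X - C (y ^ q)) * (X - C (y ^ (q ^ 2)))).Monic :=
    ((monic_X_sub_C _).mul (monic_X_sub_C _)).mul (monic_X_sub_C _)
  refine ⟨_, ?_, ?_, hmap⟩
  · rw [← hmap] at hmon
    exact (Polynomial.monic_map_iff.1 hmon)
  · rw [← natDegree_map ι, hmap, ((monic_X_sub_C _).mul (monic_X_sub_C _)).natDegree_mul
      (monic_X_sub_C _), (monic_X_sub_C _).natDegree_mul (monic_X_sub_C _),
      natDegree_X_sub_C, natDegree_X_sub_C, natDegree_X_sub_C]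

/-- the chosen cubic polynomial -/
noncomputable def fpoly (y : F) : E[X] := (exists_poly ι hE hF y).choose

theorem fpoly_monic (y : F) : (fpoly ι hE hF y).Monic := (exists_poly ι hE hF y).choose_spec.1

theorem fpoly_deg (y : F) : (fpoly ι hE hF y).natDegree = 3 :=
  (exists_poly ι hE hF y).choose_spec.2.1

theorem fpoly_map (y : F) : (fpoly ι hE hF y).map ι =
    (X - C y) * (X - C (y ^ q)) * (X - C (y ^ (q ^ 2))) :=
  (exists_poly ι hE hF y).choose_spec.2.2

theorem fpoly_eval (y : F) (t : E) :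
    ι ((fpoly ι hE hF y).eval t) = (ι t - y) ^ (q ^ 2 + q + 1) := by
  have h1 : ι ((fpoly ι hE hF y).eval t) = ((fpoly ι hE hF y).map ι).eval (ι t) := by
    rw [eval_map_apply]
  rw [h1, fpoly_map]
  simp only [eval_mul, eval_sub, eval_X, eval_C]
  have h2 : ι t - y ^ q = (ι t - y) ^ q := by rw [frob_sub ι hE, frob_map ι hE]
  have h3 : ι t - y ^ (q ^ 2) = (ι t - y) ^ (q ^ 2) := by
    rw [sq, pow_mul, pow_mul, frob_sub ι hE, frob_sub ι hE, frob_map ι hE, frob_map ι hE]
  rw [h2, h3]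
  ring

theorem fpoly_eval_ne {y : F} (hy : ∀ t, ι t ≠ y) (t : E) : (fpoly ι hE hF y).eval t ≠ 0 := by
  intro h
  have h1 := fpoly_eval ι hE hF y t
  rw [h, map_zero] at h1
  have h2 := pow_eq_zero_iff (by positivity) |>.1 h1.symm
  exact hy t (sub_eq_zero.1 h2)

theorem fpoly_irr {y : F} (hy : ∀ t, ι t ≠ y) : Irreducible (fpoly ι hE hF y) := by
  apply irreducible_of_degree_le_three_of_not_isRoot
  · rw [fpoly_deg]
    decide
  · intro t ht
    exact fpoly_eval_ne ι hE hF hy t ht

theorem fpoly_eq {y y' : F} (h : fpoly ι hE hF y = fpoly ι hE hF y') :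
    y' = y ∨ y' = y ^ q ∨ y' = y ^ (q ^ 2) := by
  have h1 := fpoly_map ι hE hF y'
  rw [← h, fpoly_map] at h1
  have h2 := congrArg (fun p => p.eval y') h1
  simp only [eval_mul, eval_sub, eval_X, eval_C, sub_self, zero_mul] at h2
  rcases mul_eq_zero.1 h2 with h3 | h3
  · rcases mul_eq_zero.1 h3 with h4 | h4
    · exact Or.inl (sub_eq_zero.1 h4)
    · exact Or.inr (Or.inl (sub_eq_zero.1 h4))
  · exact Or.inr (Or.inr (sub_eq_zero.1 h3))

/-- adjacency to a point of `E` -/
theorem adj_map_iff {Q : ℕ} (hQ : 3 * Q + 1 = q) {y : F} (hy : ∀ t, ι t ≠ y) (t : E) :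
    (SimpleGraph.fromRel (fun x y : F => ∃ z : F, z ^ 3 = x - y)).Adj (ι t) y ↔
      ((fpoly ι hE hF y).eval t) ^ Q = 1 := by
  rw [adj_iff]
  have hne : ι t - y ≠ 0 := sub_ne_zero.2 (hy t)
  have hM : 3 * ((q ^ 2 + q + 1) * Q) + 1 = Fintype.card F := by
    rw [hF, ← hQ]; ring
  rw [cube_iff _ hM hne, pow_mul, ← fpoly_eval ι hE hF, ← map_pow]
  constructor
  · rintro ⟨-, h⟩
    exact ι.injective (by rw [h, map_one])
  · intro h
    exact ⟨hy t, by rw [h, map_one]⟩

include hE hF in
/-- the image of `E` is a clique -/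
theorem clique_image {Q : ℕ} (hQ : 3 * Q + 1 = q) :
    (SimpleGraph.fromRel (fun x y : F => ∃ z : F, z ^ 3 = x - y)).IsClique
      ((Finset.univ.image ι : Finset F) : Set F) := by
  intro x hx y hy hxy
  obtain ⟨s, -, rfl⟩ := Finset.mem_image.1 (Finset.mem_coe.1 hx)
  obtain ⟨t, -, rfl⟩ := Finset.mem_image.1 (Finset.mem_coe.1 hy)
  rw [adj_iff]
  refine ⟨hxy, ?_⟩
  have hst : s - t ≠ 0 := sub_ne_zero.2 fun h => hxy (by rw [h])
  have hne : ι s - ι t ≠ 0 := sub_ne_zero.2 hxy
  have hM : 3 * ((q ^ 2 + q + 1) * Q) + 1 = Fintype.card F := by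
    rw [hF, ← hQ]; ring
  rw [cube_iff _ hM hne, ← map_sub, ← map_pow]
  have h3 : (q ^ 2 + q + 1) * Q = 3 * Q * (3 * Q ^ 2 + 3 * Q + 1) := by rw [← hQ]; ring
  have h4 : (s - t) ^ (3 * Q) = 1 := by
    have := FiniteField.pow_card_sub_one_eq_one _ hst
    have h5 : Fintype.card E - 1 = 3 * Q := by rw [hE]; omega
    rwa [h5] at this
  rw [h3, pow_mul, h4, one_pow, map_one]

/-! ### Cube-freeness -/

theorem not_cube_one {f : E[X]} (hirr : Irreducible f) (hdeg : f.natDegree = 3) (c : E)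
    (h : E[X]) : f ≠ C c * h ^ 3 := by
  intro hf
  have hc : c ≠ 0 := by
    rintro rfl
    rw [C_0, zero_mul] at hf
    rw [hf] at hdeg
    simp at hdeg
  have h1 : f.natDegree = 3 * h.natDegree := by
    rw [hf, natDegree_C_mul hc, natDegree_pow]
  have h2 : h ∣ f := ⟨C c * h ^ 2, by rw [hf]; ring⟩
  obtain ⟨k, hk⟩ := h2
  rcases hirr.isUnit_or_isUnit hk with h3 | h3
  · have := natDegree_eq_zero_of_isUnit h3
    omega
  · have h4 := natDegree_eq_zero_of_isUnit h3
    have h5 : f ≠ 0 := hirr.ne_zero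
    have h6 : h ≠ 0 := by rintro rfl; rw [zero_mul] at hk; exact h5 hk
    have h7 : k ≠ 0 := by rintro rfl; rw [mul_zero] at hk; exact h5 hk
    have h8 : f.natDegree = h.natDegree + k.natDegree := by
      rw [hk, natDegree_mul h6 h7]
    omega

theorem not_cube_mul {f g : E[X]} (hf : Irreducible f) (hg : Irreducible g) (hfm : f.Monic)
    (hgm : g.Monic) (hne : f ≠ g) (j : ℕ) (hj : j ≤ 2) (c : E) (h : E[X]) :
    f * g ^ j ≠ C c * h ^ 3 := by
  intro heq
  have hc : c ≠ 0 := by
    rintro rfl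
    rw [C_0, zero_mul] at heq
    exact mul_ne_zero hf.ne_zero (pow_ne_zero _ hg.ne_zero) heq
  have hfp : Prime f := hf.prime
  have h1 : f ∣ C c * h ^ 3 := ⟨g ^ j, heq.symm⟩
  have h2 : f ∣ h := by
    rcases hfp.dvd_or_dvd h1 with h3 | h3
    · exfalso
      exact hf.not_isUnit (isUnit_of_dvd_unit h3 (isUnit_C.2 (isUnit_iff_ne_zero.2 hc)))
    · exact hfp.dvd_of_dvd_pow h3
  obtain ⟨k, rfl⟩ := h2
  have h3 : g ^ j = f * (C c * f * k ^ 3) := by
    have : f * g ^ j = f * (f * (C c * f * k ^ 3)) := by rw [heq]; ring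
    exact mul_left_cancel₀ hf.ne_zero this
  have h4 : f ∣ g ^ j := ⟨_, h3⟩
  have h5 : f ∣ g := hfp.dvd_of_dvd_pow h4
  have h6 : Associated f g := hf.associated_of_dvd hg h5
  exact hne (eq_of_monic_of_associated hfm hgm h6)

/-! ### Counting -/

/-- the lower bound for the number of neighbours in `E` of a point outside `E` -/
theorem count_one {f : E[X]} (hirr : Irreducible f) (hdeg : f.natDegree = 3)
    (hnz : ∀ t, f.eval t ≠ 0) (Q t : ℕ) (ht : 100 ≤ t)
    (hcard : Fintype.card E = (3 * t + 2) ^ 2) (hQ : 3 * Q + 1 = Fintype.card E) :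
    (3 * t + 2) ^ 2 ≤ 3 * (Finset.univ.filter fun x : E => f.eval x ^ Q = 1).card + 600 * t := by
  -- a primitive cube root of unity
  obtain ⟨w, hw⟩ : ∃ w : E, w ^ 2 + w + 1 = 0 := by
    obtain ⟨g, hg⟩ := IsCyclic.exists_generator (α := Eˣ)
    have horder : orderOf g = 3 * Q := by
      rw [orderOf_eq_card_of_forall_mem_zpowers hg, Nat.card_units, Nat.card_eq_fintype_card]
      omega
    have hQ0 : 0 < Q := by
      rcases Nat.eq_zero_or_pos Q with h | h
      · subst h
        have := Fintype.one_lt_card (α := E)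
        omega
      · exact h
    have h1 : (g ^ Q) ^ 3 = 1 := by rw [← pow_mul, mul_comm, ← horder, pow_orderOf_eq_one]
    have h2 : g ^ Q ≠ 1 := by
      intro h
      have := orderOf_dvd_of_pow_eq_one h
      rw [horder] at this
      have := Nat.le_of_dvd hQ0 this
      omega
    refine ⟨(g ^ Q : Eˣ), ?_⟩
    have h3 : ((g ^ Q : Eˣ) : E) ^ 3 = 1 := by
      rw [← Units.val_pow_eq_pow_val, h1, Units.val_one]
    have h4 : ((g ^ Q : Eˣ) : E) - 1 ≠ 0 := by
      intro h
      apply h2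
      apply Units.ext
      rw [Units.val_one]
      exact sub_eq_zero.1 h
    have h5 : (((g ^ Q : Eˣ) : E) - 1) * (((g ^ Q : Eˣ) : E) ^ 2 + ((g ^ Q : Eˣ) : E) + 1) = 0 := by
      linear_combination h3
    exact (mul_eq_zero.1 h5).resolve_left h4
  have hb := fun a => card_le3 f (by omega) (by omega) (hnz 0)
    (fun c h => not_cube_one hirr hdeg c h) a Q t ht hcard hQ
  have h1 := hb w
  have h2 := hb (w ^ 2)
  have hcover : (Finset.univ : Finset E) ⊆
      (Finset.univ.filter fun x : E => f.eval x ^ Q = 1) ∪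
      ((Finset.univ.filter fun x : E => f.eval x = 0 ∨ f.eval x ^ Q = w) ∪
       (Finset.univ.filter fun x : E => f.eval x = 0 ∨ f.eval x ^ Q = w ^ 2)) := by
    intro x _
    have h3 : (f.eval x ^ Q) ^ 3 = 1 := by
      rw [← pow_mul, mul_comm]
      have := FiniteField.pow_card_sub_one_eq_one _ (hnz x)
      have h5 : Fintype.card E - 1 = 3 * Q := by omega
      rwa [h5] at this
    have h4 : (f.eval x ^ Q - 1) * ((f.eval x ^ Q - w) * (f.eval x ^ Q - w ^ 2)) = 0 := by
      linear_combination h3 + (-((f.eval x ^ Q) ^ 2) + f.eval x ^ Q * w - w + 1) * hw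
    rcases mul_eq_zero.1 h4 with h5 | h5
    · exact Finset.mem_union_left _ (Finset.mem_filter.2 ⟨Finset.mem_univ _, sub_eq_zero.1 h5⟩)
    · rcases mul_eq_zero.1 h5 with h6 | h6
      · exact Finset.mem_union_right _ (Finset.mem_union_left _
          (Finset.mem_filter.2 ⟨Finset.mem_univ _, Or.inr (sub_eq_zero.1 h6)⟩))
      · exact Finset.mem_union_right _ (Finset.mem_union_right _
          (Finset.mem_filter.2 ⟨Finset.mem_univ _, Or.inr (sub_eq_zero.1 h6)⟩))
  have h3 := Finset.card_le_card hcover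
  rw [Finset.card_univ, hcard] at h3
  have h4 := Finset.card_union_le (Finset.univ.filter fun x : E => f.eval x ^ Q = 1)
    ((Finset.univ.filter fun x : E => f.eval x = 0 ∨ f.eval x ^ Q = w) ∪
       (Finset.univ.filter fun x : E => f.eval x = 0 ∨ f.eval x ^ Q = w ^ 2))
  have h5 := Finset.card_union_le (Finset.univ.filter fun x : E => f.eval x = 0 ∨ f.eval x ^ Q = w)
    (Finset.univ.filter fun x : E => f.eval x = 0 ∨ f.eval x ^ Q = w ^ 2)
  omega

/-- the upper bound for the number of common neighbours in `E` of two points outside `E` -/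
theorem count_two {f g : E[X]} (hf : Irreducible f) (hg : Irreducible g) (hfm : f.Monic)
    (hgm : g.Monic) (hne : f ≠ g) (hfd : f.natDegree = 3) (hgd : g.natDegree = 3)
    (hfz : ∀ t, f.eval t ≠ 0) (hgz : ∀ t, g.eval t ≠ 0) (Q t : ℕ) (ht : 100 ≤ t)
    (hcard : Fintype.card E = (3 * t + 2) ^ 2) (hQ : 3 * Q + 1 = Fintype.card E) :
    9 * (Finset.univ.filter fun x : E => f.eval x ^ Q = 1 ∧ g.eval x ^ Q = 1).card ≤
      (3 * t + 2) ^ 2 + 1200 * t := by
  have h1 := card_le3 f (by omega) (by omega) (hfz 0)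
    (fun c h => not_cube_one hf hfd c h) 1 Q t ht hcard hQ
  have h2 := card_le3 g (by omega) (by omega) (hgz 0)
    (fun c h => not_cube_one hg hgd c h) 1 Q t ht hcard hQ
  have hd3 : (f * g ^ 1).natDegree = 6 := by
    rw [pow_one, hfm.natDegree_mul hgm]; omega
  have hd4 : (f * g ^ 2).natDegree = 9 := by
    rw [hfm.natDegree_mul (hgm.pow 2), hgm.natDegree_pow]; omega
  have h3 := card_le3 (f * g ^ 1) (by omega) (by omega)
    (by rw [eval_mul, eval_pow]; exact mul_ne_zero (hfz 0) (pow_ne_zero _ (hgz 0)))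
    (fun c h => not_cube_mul hf hg hfm hgm hne 1 (by omega) c h) 1 Q t ht hcard hQ
  have h4 := card_le3 (f * g ^ 2) (by omega) (by omega)
    (by rw [eval_mul, eval_pow]; exact mul_ne_zero (hfz 0) (pow_ne_zero _ (hgz 0)))
    (fun c h => not_cube_mul hf hg hfm hgm hne 2 (by omega) c h) 1 Q t ht hcard hQ
  -- pointwise inequality
  have hpt : ∀ x : E, 1 + 3 * (if f.eval x ^ Q = 1 ∧ g.eval x ^ Q = 1 then 1 else 0) ≤
      (if f.eval x = 0 ∨ f.eval x ^ Q = 1 then 1 else 0) +
      (if g.eval x = 0 ∨ g.eval x ^ Q = 1 then 1 else 0) +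
      (if (f * g ^ 1).eval x = 0 ∨ (f * g ^ 1).eval x ^ Q = 1 then 1 else 0) +
      (if (f * g ^ 2).eval x = 0 ∨ (f * g ^ 2).eval x ^ Q = 1 then 1 else 0) := by
    intro x
    have e3 : (f * g ^ 1).eval x ^ Q = f.eval x ^ Q * g.eval x ^ Q := by
      rw [eval_mul, eval_pow, pow_one, mul_pow]
    have e4 : (f * g ^ 2).eval x ^ Q = f.eval x ^ Q * (g.eval x ^ Q) ^ 2 := by
      rw [eval_mul, eval_pow, mul_pow]; ring
    have hu : (f.eval x ^ Q) ^ 3 = 1 := by
      rw [← pow_mul, mul_comm]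
      have := FiniteField.pow_card_sub_one_eq_one _ (hfz x)
      have h5 : Fintype.card E - 1 = 3 * Q := by omega
      rwa [h5] at this
    have hv : (g.eval x ^ Q) ^ 3 = 1 := by
      rw [← pow_mul, mul_comm]
      have := FiniteField.pow_card_sub_one_eq_one _ (hgz x)
      have h5 : Fintype.card E - 1 = 3 * Q := by omega
      rwa [h5] at this
    rw [e3, e4]
    generalize f.eval x ^ Q = u at hu ⊢
    generalize g.eval x ^ Q = v at hv ⊢
    have key : ∀ a b c d : ℕ, 1 ≤ a ∨ 1 ≤ b ∨ 1 ≤ c ∨ 1 ≤ d → 1 ≤ a + b + c + d := by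
      intro a b c d h; omega
    by_cases hu1 : u = 1
    · by_cases hv1 : v = 1
      · simp [hu1, hv1]
      · rw [if_neg (fun h => hv1 h.2), mul_zero, add_zero]
        exact key _ _ _ _ (Or.inl (by rw [if_pos (Or.inr hu1)]))
    · rw [if_neg (fun h => hu1 h.1), mul_zero, add_zero]
      by_cases hv1 : v = 1
      · exact key _ _ _ _ (Or.inr (Or.inl (by rw [if_pos (Or.inr hv1)])))
      · have h5 : u * v = 1 ∨ u * v ^ 2 = 1 := by
          have hu2 : u ^ 2 + u + 1 = 0 := by
            have : (u - 1) * (u ^ 2 + u + 1) = 0 := by linear_combination hu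
            exact (mul_eq_zero.1 this).resolve_left (sub_ne_zero.2 hu1)
          have hv2 : v ^ 2 + v + 1 = 0 := by
            have : (v - 1) * (v ^ 2 + v + 1) = 0 := by linear_combination hv
            exact (mul_eq_zero.1 this).resolve_left (sub_ne_zero.2 hv1)
          have h6 : (v - u) * (v - u ^ 2) = 0 := by
            linear_combination hv2 + (u - 1 - v) * hu2
          rcases mul_eq_zero.1 h6 with h7 | h7
          · right
            have : v = u := sub_eq_zero.1 h7
            rw [this]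
            linear_combination hu
          · left
            have : v = u ^ 2 := sub_eq_zero.1 h7
            rw [this]
            linear_combination hu
        rcases h5 with h5 | h5
        · exact key _ _ _ _ (Or.inr (Or.inr (Or.inl (by rw [if_pos (Or.inr h5)]))))
        · exact key _ _ _ _ (Or.inr (Or.inr (Or.inr (by rw [if_pos (Or.inr h5)]))))
  have hsum := Finset.sum_le_sum fun (x : E) (_ : x ∈ Finset.univ) => hpt x
  simp only [Finset.sum_add_distrib, ← Finset.mul_sum, Finset.sum_const, Finset.card_univ,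
    smul_eq_mul, mul_one, ← Finset.card_filter] at hsum
  rw [hcard] at hsum
  omega

end

end Pool.Agent.H759R3.GP
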