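import Pool.Agent.H759R3.GPField

/-!
# Maximal cliques of intermediate size in the cubic Paley graph of order `q^3`, `q = r^2`
-/

set_option autoImplicit false

namespace Pool.Agent.H759R3.GP

open Polynomial
open Pool.Agent.H759R3.Step3

/-- The image of a subfield with `r^3` elements is a clique of the graph of cubes of a field with
`r^6` elements, `r = 3 t + 2`. -/
theorem clique_sub {F K : Type} [Field F] [Fintype F] [DecidableEq F] [Field K] [Fintype K]
    (κ : K →+* F) (t : ℕ) (hK : Fintype.card K = (3 * t + 2) ^ 3)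
    (hF : Fintype.card F = (3 * t + 2) ^ 6) :
    (SimpleGraph.fromRel (fun x y : F => ∃ z : F, z ^ 3 = x - y)).IsClique
      ((Finset.univ.image κ : Finset F) : Set F) := by
  intro x hx y hy hxy
  obtain ⟨a, -, rfl⟩ := Finset.mem_image.1 (Finset.mem_coe.1 hx)
  obtain ⟨b, -, rfl⟩ := Finset.mem_image.1 (Finset.mem_coe.1 hy)
  rw [adj_iff]
  refine ⟨hxy, ?_⟩
  have hab : a - b ≠ 0 := sub_ne_zero.2 fun h => hxy (by rw [h])
  have hne : κ a - κ b ≠ 0 := sub_ne_zero.2 hxy
  -- `(r^3 - 1) * ((r^3 + 1) / 3)`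
  obtain ⟨u, hu⟩ : ∃ u : ℕ, u + 1 = (3 * t + 2) ^ 3 :=
    ⟨(3 * t + 2) ^ 3 - 1, Nat.sub_add_cancel (Nat.one_le_pow _ _ (by omega))⟩
  have hv : 3 * (9 * t ^ 3 + 18 * t ^ 2 + 12 * t + 3) = (3 * t + 2) ^ 3 + 1 := by ring
  have hM : 3 * (u * (9 * t ^ 3 + 18 * t ^ 2 + 12 * t + 3)) + 1 = Fintype.card F := by
    have h1 : 3 * (u * (9 * t ^ 3 + 18 * t ^ 2 + 12 * t + 3)) =
        u * (3 * (9 * t ^ 3 + 18 * t ^ 2 + 12 * t + 3)) := by ring
    rw [h1, hv, ← hu, hF]
    have h2 : (3 * t + 2) ^ 6 = ((3 * t + 2) ^ 3) ^ 2 := by ring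
    rw [h2, ← hu]
    ring
  rw [cube_iff _ hM hne, ← map_sub, ← map_pow]
  have h4 : (a - b) ^ u = 1 := by
    have h := FiniteField.pow_card_sub_one_eq_one _ hab
    have h5 : Fintype.card K - 1 = u := by rw [hK, ← hu]; rfl
    rwa [h5] at h
  rw [pow_mul, h4, one_pow, map_one]

/-- Main step: a maximal clique of size between `2 q` and `20 q`. -/
theorem main {F E K : Type} [Field F] [Fintype F] [DecidableEq F] [Field E] [Fintype E]
    [DecidableEq E] [Field K] [Fintype K] (ι : E →+* F) (κ : K →+* F) (t : ℕ) (ht : 1000 ≤ t)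
    (hE : Fintype.card E = (3 * t + 2) ^ 2) (hK : Fintype.card K = (3 * t + 2) ^ 3)
    (hF : Fintype.card F = (3 * t + 2) ^ 6) :
    ∃ s : Finset F,
      (SimpleGraph.fromRel (fun x y : F => ∃ z : F, z ^ 3 = x - y)).IsClique (s : Set F) ∧
      (∀ s' : Finset F,
        (SimpleGraph.fromRel (fun x y : F => ∃ z : F, z ^ 3 = x - y)).IsClique (s' : Set F) →
          s ⊆ s' → s' = s) ∧
      2 * (3 * t + 2) ^ 2 ≤ s.card ∧ s.card ≤ 20 * (3 * t + 2) ^ 2 := by
  classical
  set G := SimpleGraph.fromRel (fun x y : F => ∃ z : F, z ^ 3 = x - y) with hG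
  have hF' : Fintype.card F = ((3 * t + 2) ^ 2) ^ 3 := by rw [hF]; ring
  obtain ⟨Q, hQ⟩ : ∃ Q : ℕ, 3 * Q + 1 = (3 * t + 2) ^ 2 := ⟨3 * t ^ 2 + 4 * t + 1, by ring⟩
  obtain ⟨P, hP⟩ : ∃ P : ℕ, P = t * t := ⟨_, rfl⟩
  have hPt : 1000 * t ≤ P := by rw [hP]; exact Nat.mul_le_mul_right t ht
  have hsq : (3 * t + 2) ^ 2 = 9 * P + 12 * t + 4 := by rw [hP]; ring
  have hcu : (3 * t + 2) ^ 3 = (3 * t + 2) * (3 * t + 2) ^ 2 := by ring
  refine exists_middle G (Finset.univ.image ι) (Finset.univ.image κ) ((3 * t + 2) ^ 2)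
    (by positivity) (clique_image ι hE hF' hQ) ?_ (clique_sub κ t hK hF) ?_ ?_
  · rw [Finset.card_image_of_injective _ ι.injective, Finset.card_univ, hE]
  · rw [Finset.card_image_of_injective _ κ.injective, Finset.card_univ, hK, hcu]
    exact Nat.mul_lt_mul_of_pos_right (by omega) (by positivity)
  · intro C hC hCc
    -- points of `C` outside `E`
    have hout : ∀ y ∈ C \ Finset.univ.image ι, ∀ s, ι s ≠ y := by
      intro y hy s hs
      rw [Finset.mem_sdiff] at hy
      exact hy.2 (Finset.mem_image.2 ⟨s, Finset.mem_univ _, hs⟩)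
    have hIcard : (Finset.univ.image ι).card = (3 * t + 2) ^ 2 := by
      rw [Finset.card_image_of_injective _ ι.injective, Finset.card_univ, hE]
    have hYcard : 19 * (3 * t + 2) ^ 2 ≤ (C \ Finset.univ.image ι).card := by
      have := Finset.le_card_sdiff (Finset.univ.image ι) C
      omega
    -- two points with different polynomials
    have hYne : (C \ Finset.univ.image ι).Nonempty := by
      rw [← Finset.card_pos]
      have : 0 < (3 * t + 2) ^ 2 := by positivity
      omega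
    obtain ⟨y1, hy1⟩ := hYne
    obtain ⟨y2, hy2, hy12⟩ : ∃ y2 ∈ C \ Finset.univ.image ι,
        fpoly ι hE hF' y1 ≠ fpoly ι hE hF' y2 := by
      by_contra hcon
      push Not at hcon
      have hsub : C \ Finset.univ.image ι ⊆
          {y1, y1 ^ ((3 * t + 2) ^ 2), y1 ^ (((3 * t + 2) ^ 2) ^ 2)} := by
        intro y hy
        rcases fpoly_eq ι hE hF' (hcon y hy) with h | h | h <;> simp [h]
      have h1 := Finset.card_le_card hsub
      have h2 : ({y1, y1 ^ ((3 * t + 2) ^ 2), y1 ^ (((3 * t + 2) ^ 2) ^ 2)} : Finset F).card ≤ 3 :=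
        Finset.card_le_three
      omega
    -- the number of points of `C` in `E`
    have hT : 9 * (C ∩ Finset.univ.image ι).card ≤ (3 * t + 2) ^ 2 + 1200 * t := by
      have h1 := count_two (fpoly_irr ι hE hF' (hout y1 hy1)) (fpoly_irr ι hE hF' (hout y2 hy2))
        (fpoly_monic ι hE hF' y1) (fpoly_monic ι hE hF' y2) hy12 (fpoly_deg ι hE hF' y1)
        (fpoly_deg ι hE hF' y2) (fpoly_eval_ne ι hE hF' (hout y1 hy1))
        (fpoly_eval_ne ι hE hF' (hout y2 hy2)) Q t (by omega) hE (by rw [hQ, hE])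
      have h2 : C ∩ Finset.univ.image ι ⊆ (Finset.univ.filter fun x : E =>
          (fpoly ι hE hF' y1).eval x ^ Q = 1 ∧ (fpoly ι hE hF' y2).eval x ^ Q = 1).image ι := by
        intro x hx
        rw [Finset.mem_inter] at hx
        obtain ⟨s, -, rfl⟩ := Finset.mem_image.1 hx.2
        refine Finset.mem_image.2 ⟨s, Finset.mem_filter.2 ⟨Finset.mem_univ _, ?_, ?_⟩, rfl⟩
        · rw [← adj_map_iff ι hE hF' hQ (hout y1 hy1)]
          exact hC (Finset.mem_coe.2 hx.1) (Finset.mem_coe.2 (Finset.mem_sdiff.1 hy1).1)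
            (hout y1 hy1 s)
        · rw [← adj_map_iff ι hE hF' hQ (hout y2 hy2)]
          exact hC (Finset.mem_coe.2 hx.1) (Finset.mem_coe.2 (Finset.mem_sdiff.1 hy2).1)
            (hout y2 hy2 s)
      have h3 := Finset.card_le_card h2
      rw [Finset.card_image_of_injective _ ι.injective] at h3
      omega
    -- the bound
    refine ⟨P, by omega, fun y hy => ?_⟩
    have h1 := count_one (fpoly_irr ι hE hF' (hout y hy)) (fpoly_deg ι hE hF' y)
      (fpoly_eval_ne ι hE hF' (hout y hy)) Q t (by omega) hE (by rw [hQ, hE])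
    have h2 : (Finset.univ.filter fun x : E => (fpoly ι hE hF' y).eval x ^ Q = 1).image ι ⊆
        (C ∩ Finset.univ.image ι) ∪
          ((Finset.univ.image ι \ C).filter fun x => G.Adj x y) := by
      intro x hx
      obtain ⟨s, hs, rfl⟩ := Finset.mem_image.1 hx
      have hs' := (Finset.mem_filter.1 hs).2
      rw [← adj_map_iff ι hE hF' hQ (hout y hy)] at hs'
      by_cases hxC : ι s ∈ C
      · exact Finset.mem_union_left _ (Finset.mem_inter.2
          ⟨hxC, Finset.mem_image_of_mem _ (Finset.mem_univ _)⟩)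
      · exact Finset.mem_union_right _ (Finset.mem_filter.2
          ⟨Finset.mem_sdiff.2 ⟨Finset.mem_image_of_mem _ (Finset.mem_univ _), hxC⟩, hs'⟩)
    have h3 := Finset.card_le_card h2
    rw [Finset.card_image_of_injective _ ι.injective] at h3
    have h4 := Finset.card_union_le (C ∩ Finset.univ.image ι)
      ((Finset.univ.image ι \ C).filter fun x => G.Adj x y)
    have h5 := hsq.symm.le.trans h1
    have h6 := hT.trans (Nat.add_le_add_right hsq.le _)
    omega

/-- For arbitrarily large `q` there is a maximal clique of size between `2 q` and `20 q` in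
`GP(q^3, 3)`. -/
theorem exists_large (N : ℕ) : ∃ q : ℕ, N ≤ q ∧ IsPrimePow q ∧ Odd q ∧ q % 3 = 1 ∧
    ∃ (F : Type) (_ : Field F) (_ : Fintype F), Fintype.card F = q ^ 3 ∧
      ∃ s : Finset F,
        (SimpleGraph.fromRel (fun x y : F => ∃ z : F, z ^ 3 = x - y)).IsClique (s : Set F) ∧
        (∀ s' : Finset F,
          (SimpleGraph.fromRel (fun x y : F => ∃ z : F, z ^ 3 = x - y)).IsClique (s' : Set F) →
            s ⊆ s' → s' = s) ∧
        2 * q ≤ s.card ∧ s.card ≤ 20 * q := by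
  classical
  obtain ⟨r, hr1, hr2, hr3⟩ := Nat.forall_exists_prime_gt_and_modEq (q := 3) (a := 2)
    (max N 4000) (by norm_num) (by decide)
  have hrN : N < r := lt_of_le_of_lt (le_max_left _ _) hr1
  have hr4 : 4000 < r := lt_of_le_of_lt (le_max_right _ _) hr1
  have hr5 : r % 3 = 2 := hr3
  obtain ⟨t, ht⟩ : ∃ t, r = 3 * t + 2 := ⟨r / 3, by omega⟩
  have : Fact r.Prime := ⟨hr2⟩
  have hodd : Odd r := hr2.odd_of_ne_two (by omega)
  let F := GaloisField r 6
  let E := GaloisField r 2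
  let K := GaloisField r 3
  have hdE : Module.finrank (ZMod r) E ∣ Module.finrank (ZMod r) F := by
    rw [GaloisField.finrank r (by norm_num), GaloisField.finrank r (by norm_num)]
    norm_num
  have hdK : Module.finrank (ZMod r) K ∣ Module.finrank (ZMod r) F := by
    rw [GaloisField.finrank r (by norm_num), GaloisField.finrank r (by norm_num)]
    norm_num
  obtain ⟨ι⟩ := FiniteField.nonempty_algHom_of_finrank_dvd hdE
  obtain ⟨κ⟩ := FiniteField.nonempty_algHom_of_finrank_dvd hdK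
  let _ : Fintype F := Fintype.ofFinite F
  let _ : Fintype E := Fintype.ofFinite E
  let _ : Fintype K := Fintype.ofFinite K
  have hF : Fintype.card F = r ^ 6 := by
    rw [← Nat.card_eq_fintype_card]; exact GaloisField.card r 6 (by norm_num)
  have hE : Fintype.card E = r ^ 2 := by
    rw [← Nat.card_eq_fintype_card]; exact GaloisField.card r 2 (by norm_num)
  have hK : Fintype.card K = r ^ 3 := by
    rw [← Nat.card_eq_fintype_card]; exact GaloisField.card r 3 (by norm_num)
  obtain ⟨s, h1, h2, h3, h4⟩ := main (ι : E →+* F) (κ : K →+* F) t (by omega)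
    (by rw [hE, ht]) (by rw [hK, ht]) (by rw [hF, ht])
  rw [← ht] at h3 h4
  refine ⟨r ^ 2, ?_, hr2.isPrimePow.pow (by norm_num), hodd.pow, ?_, F, inferInstance,
    inferInstance, ?_, s, h1, h2, h3, h4⟩
  · nlinarith
  · rw [Nat.pow_mod, hr5]
  · rw [hF]; ring

/-- There is an attainable limit at least `2` for `d = 3`. -/
theorem exists_limit : ∃ L : ℝ, 2 ≤ L ∧ ∀ ε : ℝ, 0 < ε → ∀ N : ℕ, ∃ q : ℕ, N ≤ q ∧
    IsPrimePow q ∧ Odd q ∧ q % 3 = 1 ∧
    ∃ (F : Type) (_ : Field F) (_ : Fintype F), Fintype.card F = q ^ 3 ∧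
      ∃ s : Finset F,
        (SimpleGraph.fromRel (fun x y : F => ∃ z : F, z ^ 3 = x - y)).IsClique (s : Set F) ∧
        (∀ s' : Finset F,
          (SimpleGraph.fromRel (fun x y : F => ∃ z : F, z ^ 3 = x - y)).IsClique (s' : Set F) →
            s ⊆ s' → s' = s) ∧
        |(s.card : ℝ) / (q : ℝ) - L| < ε := by
  choose q hqN hq1 hq2 hq3 F hF1 hF2 hF3 s hs1 hs2 hs3 hs4 using fun n : ℕ => exists_large (n + 1)
  let x : ℕ → ℝ := fun n => ((s n).card : ℝ) / (q n : ℝ)
  have hx : ∀ n, x n ∈ Set.Icc (2 : ℝ) 20 := by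
    intro n
    have hq0 : (0 : ℝ) < q n := by
      have := hqN n
      have h : 0 < q n := by omega
      exact_mod_cast h
    constructor
    · rw [le_div_iff₀ hq0]
      exact_mod_cast hs3 n
    · rw [div_le_iff₀ hq0]
      exact_mod_cast hs4 n
  obtain ⟨L, hL, φ, hφ, hlim⟩ := isCompact_Icc.tendsto_subseq hx
  refine ⟨L, hL.1, fun ε hε N => ?_⟩
  rw [Metric.tendsto_atTop] at hlim
  obtain ⟨M, hM⟩ := hlim ε hε
  let m := max M N
  have h1 := hM m (le_max_left _ _)
  have h2 : N ≤ φ m := (le_max_right M N).trans (hφ.id_le m)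
  refine ⟨q (φ m), ?_, hq1 _, hq2 _, hq3 _, F (φ m), hF1 _, hF2 _, hF3 _, s (φ m), hs1 _, hs2 _,
    ?_⟩
  · have := hqN (φ m)
    omega
  · rw [Real.dist_eq] at h1
    exact h1

end Pool.Agent.H759R3.GP
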