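import Pool.Agent.H341R2.Stepanov

/-!
# Stepanov's method for cubic characters
-/

set_option autoImplicit false

namespace Pool.Agent.H759R3.Step3

open Polynomial
open Pool.Agent.H341R2

theorem norm_field {K : Type*} [Field K] {w : K} (hw : ∀ b : K, b ^ 3 ≠ w) (a b c : K)
    (h : a ^ 3 + w * b ^ 3 + w ^ 2 * c ^ 3 - 3 * w * a * b * c = 0) : a = 0 ∧ b = 0 ∧ c = 0 := by
  have hirr : Irreducible (X ^ 3 - C w : K[X]) :=
    X_pow_sub_C_irreducible_of_prime Nat.prime_three hw
  have hprime := hirr.prime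
  set P : K[X] := C a + C b * X + C c * X ^ 2 with hP
  set P' : K[X] := C (a ^ 2 - w * b * c) + C (w * c ^ 2 - a * b) * X + C (b ^ 2 - a * c) * X ^ 2
    with hP'
  have hmul : P * P' = C (a ^ 3 + w * b ^ 3 + w ^ 2 * c ^ 3 - 3 * w * a * b * c) +
      (X ^ 3 - C w) * (C (b ^ 3 - 2 * a * b * c + w * c ^ 3) + C (b ^ 2 * c - a * c ^ 2) * X) := by
    rw [hP, hP']
    simp only [C_add, C_sub, C_mul, C_pow, C_ofNat]
    ring
  have hdvd : (X ^ 3 - C w : K[X]) ∣ P * P' := by
    rw [hmul, h, C_0, zero_add]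
    exact dvd_mul_right _ _
  have hdeg : ∀ x y z : K, (C x + C y * X + C z * X ^ 2 : K[X]).natDegree ≤ 2 := by
    intro x y z
    refine (natDegree_add_le _ _).trans (max_le ?_ ?_)
    · refine (natDegree_add_le _ _).trans (max_le ?_ ?_)
      · rw [natDegree_C]; omega
      · refine (natDegree_C_mul_le _ _).trans ?_
        rw [natDegree_X]; omega
    · refine (natDegree_C_mul_le _ _).trans ?_
      rw [natDegree_X_pow]
  have hcoef : ∀ x y z : K, (C x + C y * X + C z * X ^ 2 : K[X]) = 0 → x = 0 ∧ y = 0 ∧ z = 0 := by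
    intro x y z hz
    have h0 := congrArg (fun p => coeff p 0) hz
    have h1 := congrArg (fun p => coeff p 1) hz
    have h2 := congrArg (fun p => coeff p 2) hz
    simp [coeff_X, coeff_C, coeff_X_pow] at h0 h1 h2
    exact ⟨h0, h1, h2⟩
  have hzero : ∀ p : K[X], p.natDegree ≤ 2 → (X ^ 3 - C w : K[X]) ∣ p → p = 0 := by
    intro p hp hd
    by_contra hne
    have h1 := natDegree_le_of_dvd hd hne
    rw [natDegree_X_pow_sub_C] at h1
    omega
  rcases hprime.dvd_or_dvd hdvd with h1 | h1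
  · exact hcoef _ _ _ (hzero P (hdeg _ _ _) h1)
  · obtain ⟨h2, h3, h4⟩ := hcoef _ _ _ (hzero P' (hdeg _ _ _) h1)
    by_cases hc : c = 0
    · subst hc
      have hb : b = 0 := by
        have : b ^ 2 = 0 := by linear_combination h4
        exact pow_eq_zero_iff two_ne_zero |>.1 this
      subst hb
      have ha : a = 0 := by
        have : a ^ 2 = 0 := by linear_combination h2
        exact pow_eq_zero_iff two_ne_zero |>.1 this
      exact ⟨ha, rfl, rfl⟩
    · exfalso
      apply hw (b / c)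
      rw [div_pow, div_eq_iff (pow_ne_zero 3 hc)]
      linear_combination b * h4 - c * h3

variable {F : Type*} [Field F]

theorem norm_poly (f : F[X]) (c : F) (hc : c ≠ 0) (hns : ∀ (c : F) (h : F[X]), f ≠ C c * h ^ 3)
    (r s u : F[X]) (h : f ^ 2 * r ^ 3 + C c * f * s ^ 3 + C c ^ 2 * u ^ 3 -
      3 * C c * f * r * s * u = 0) : r = 0 ∧ s = 0 ∧ u = 0 := by
  classical
  let K := FractionRing F[X]
  let φ := algebraMap F[X] K
  have hφ : Function.Injective φ := IsFractionRing.injective F[X] K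
  have hf : f ≠ 0 := by
    intro h0
    exact hns 0 0 (by rw [h0]; simp)
  have hφf : φ f ≠ 0 := by
    intro h0
    exact hf (hφ (by rw [h0, map_zero]))
  have hw : ∀ b : K, b ^ 3 ≠ φ (C c) / φ f := by
    intro b hb
    obtain ⟨n, m, hm, rfl⟩ := IsFractionRing.div_surjective (A := F[X]) b
    have hm0 : m ≠ 0 := nonZeroDivisors.ne_zero hm
    have hφm : φ m ≠ 0 := by
      intro h0
      exact hm0 (hφ (by rw [h0, map_zero]))
    rw [div_pow, div_eq_div_iff (pow_ne_zero 3 hφm) hφf] at hb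
    have h1 : n ^ 3 * f = C c * m ^ 3 := by
      apply hφ
      simp only [map_mul, map_pow]
      exact hb
    have hn0 : n ≠ 0 := by
      rintro rfl
      have h2 : C c * m ^ 3 = 0 := by rw [← h1]; ring
      rcases mul_eq_zero.1 h2 with h3 | h3
      · rw [C_eq_zero] at h3
        exact hc h3
      · exact hm0 (pow_eq_zero_iff three_ne_zero |>.1 h3)
    have h2 : n ^ 3 ∣ m ^ 3 := by
      refine ⟨C c⁻¹ * f, ?_⟩
      have h3 : m ^ 3 = C c⁻¹ * (C c * m ^ 3) := by
        rw [← mul_assoc, ← C_mul, inv_mul_cancel₀ hc, C_1, one_mul]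
      rw [h3, ← h1]
      ring
    rw [IsIntegrallyClosed.pow_dvd_pow_iff three_ne_zero] at h2
    obtain ⟨k, rfl⟩ := h2
    apply hns c k
    have h3 : n ^ 3 * f = n ^ 3 * (C c * k ^ 3) := by
      rw [h1]
      ring
    exact mul_left_cancel₀ (pow_ne_zero 3 hn0) h3
  have hK : φ r ^ 3 + (φ (C c) / φ f) * φ s ^ 3 + (φ (C c) / φ f) ^ 2 * φ u ^ 3 -
      3 * (φ (C c) / φ f) * φ r * φ s * φ u = 0 := by
    have h1 := congrArg φ h
    simp only [map_add, map_sub, map_mul, map_pow, map_zero, map_ofNat] at h1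
    have h2 : φ (C c) = (φ (C c) / φ f) * φ f := (div_mul_cancel₀ _ hφf).symm
    generalize φ (C c) / φ f = w at h2 ⊢
    rw [h2] at h1
    have h3 : φ f ^ 2 * (φ r ^ 3 + w * φ s ^ 3 + w ^ 2 * φ u ^ 3 -
        3 * w * φ r * φ s * φ u) = 0 := by
      linear_combination h1
    exact (mul_eq_zero.1 h3).resolve_left (pow_ne_zero 2 hφf)
  obtain ⟨h1, h2, h3⟩ := norm_field hw _ _ _ hK
  exact ⟨hφ (by rw [h1, map_zero]), hφ (by rw [h2, map_zero]), hφ (by rw [h3, map_zero])⟩

theorem eq_zero_of_sum3 [Fintype F] (f : F[X]) (hf0 : f.eval 0 ≠ 0)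
    (hns : ∀ (c : F) (h : F[X]), f ≠ C c * h ^ 3) (A Q : ℕ)
    (hQ : 3 * Q + 1 = Fintype.card F) (hA : 3 * A + 2 * f.natDegree < Fintype.card F) (J : ℕ) :
    ∀ r s u : ℕ → F[X], (∀ j, (r j).natDegree ≤ A) → (∀ j, (s j).natDegree ≤ A) →
      (∀ j, (u j).natDegree ≤ A) →
      (∑ j ∈ Finset.range J, (r j + s j * f ^ Q + u j * f ^ (2 * Q)) *
        X ^ (j * Fintype.card F) = 0) →
      ∀ j < J, r j = 0 ∧ s j = 0 ∧ u j = 0 := by
  induction J with
  | zero => intro r s u _ _ _ _ j hj; omega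
  | succ J ih =>
    intro r s u hr hs hu h
    set q := Fintype.card F with hq
    rw [Finset.sum_range_succ'] at h
    have e1 : ∑ k ∈ Finset.range J, (r (k + 1) + s (k + 1) * f ^ Q + u (k + 1) * f ^ (2 * Q)) *
        X ^ ((k + 1) * q) =
        X ^ q * ∑ k ∈ Finset.range J, (r (k + 1) + s (k + 1) * f ^ Q +
          u (k + 1) * f ^ (2 * Q)) * X ^ (k * q) := by
      rw [Finset.mul_sum]
      refine Finset.sum_congr rfl fun k _ => ?_
      rw [Nat.succ_mul, pow_add]
      ring
    rw [e1, Nat.zero_mul, pow_zero, mul_one] at h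
    have hdvd : (X : F[X]) ^ q ∣ r 0 + s 0 * f ^ Q + u 0 * f ^ (2 * Q) := by
      refine ⟨-∑ k ∈ Finset.range J, (r (k + 1) + s (k + 1) * f ^ Q +
        u (k + 1) * f ^ (2 * Q)) * X ^ (k * q), ?_⟩
      linear_combination h
    -- Frobenius
    have hfrob : (X : F[X]) ^ q ∣ f ^ q - C (f.eval 0) := by
      obtain ⟨p, hp⟩ := CharP.exists F
      have := hp
      have : Fact p.Prime := ⟨CharP.char_is_prime F p⟩
      obtain ⟨n, -, hn⟩ := FiniteField.card F p
      have h1 : (X : F[X]) ∣ f - C (f.eval 0) := by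
        have := X_sub_C_dvd_sub_C_eval (a := (0 : F)) (p := f)
        simpa using this
      have h2 := pow_dvd_pow_of_dvd h1 q
      rw [hq]
      rw [hq, hn, sub_pow_char_pow, ← C_pow, ← hn, FiniteField.pow_card] at h2
      exact h2
    set c := f.eval 0 with hc
    set g := f ^ Q with hg
    have hg2 : f ^ (2 * Q) = g ^ 2 := by rw [hg, ← pow_mul, mul_comm]
    have hfq : f ^ q = f * g ^ 3 := by
      rw [hg, ← pow_mul, ← pow_succ', ← hQ]
      congr 1
      ring
    rw [hg2] at hdvd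
    have hdvd2 : (X : F[X]) ^ q ∣ f ^ 2 * r 0 ^ 3 + C c * f * s 0 ^ 3 + C c ^ 2 * u 0 ^ 3 -
        3 * C c * f * r 0 * s 0 * u 0 := by
      obtain ⟨a, ha⟩ := hfrob
      rw [hfq] at ha
      obtain ⟨b, hb⟩ := hdvd
      refine ⟨b * f ^ 2 * ((r 0 ^ 2 - s 0 * u 0 * g ^ 3) + (u 0 ^ 2 * g ^ 3 - r 0 * s 0) * g +
        (s 0 ^ 2 - r 0 * u 0) * g ^ 2) - a * (f * s 0 ^ 3 + u 0 ^ 3 * (f * g ^ 3 + C c) -
        3 * r 0 * s 0 * u 0 * f), ?_⟩
      have h1 : X ^ q * (b * f ^ 2 * ((r 0 ^ 2 - s 0 * u 0 * g ^ 3) +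
          (u 0 ^ 2 * g ^ 3 - r 0 * s 0) * g +
          (s 0 ^ 2 - r 0 * u 0) * g ^ 2) - a * (f * s 0 ^ 3 + u 0 ^ 3 * (f * g ^ 3 + C c) -
          3 * r 0 * s 0 * u 0 * f)) = (X ^ q * b) * f ^ 2 * ((r 0 ^ 2 - s 0 * u 0 * g ^ 3) +
          (u 0 ^ 2 * g ^ 3 - r 0 * s 0) * g +
          (s 0 ^ 2 - r 0 * u 0) * g ^ 2) - (X ^ q * a) * (f * s 0 ^ 3 +
          u 0 ^ 3 * (f * g ^ 3 + C c) - 3 * r 0 * s 0 * u 0 * f) := by ring
      rw [h1, ← ha, ← hb]
      ring
    have hzero : f ^ 2 * r 0 ^ 3 + C c * f * s 0 ^ 3 + C c ^ 2 * u 0 ^ 3 -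
        3 * C c * f * r 0 * s 0 * u 0 = 0 := by
      by_contra hne
      have h1 := natDegree_le_of_dvd hdvd2 hne
      rw [natDegree_X_pow] at h1
      have hr0 := hr 0
      have hs0 := hs 0
      have hu0 := hu 0
      have h2 : (f ^ 2 * r 0 ^ 3 + C c * f * s 0 ^ 3 + C c ^ 2 * u 0 ^ 3 -
          3 * C c * f * r 0 * s 0 * u 0).natDegree ≤ 3 * A + 2 * f.natDegree := by
        refine (natDegree_sub_le _ _).trans (max_le ?_ ?_)
        · refine (natDegree_add_le _ _).trans (max_le ?_ ?_)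
          · refine (natDegree_add_le _ _).trans (max_le ?_ ?_)
            · refine natDegree_mul_le.trans ?_
              have h3 := natDegree_pow_le (p := r 0) (n := 3)
              have h4 := natDegree_pow_le (p := f) (n := 2)
              omega
            · refine natDegree_mul_le.trans ?_
              have h3 := natDegree_pow_le (p := s 0) (n := 3)
              have h4 := natDegree_C_mul_le c f
              omega
          · rw [← C_pow]
            refine (natDegree_C_mul_le _ _).trans ?_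
            have h3 := natDegree_pow_le (p := u 0) (n := 3)
            omega
        · have e : 3 * C c * f * r 0 * s 0 * u 0 = C (3 * c) * (f * r 0 * s 0 * u 0) := by
            rw [C_mul, C_ofNat]
            ring
          rw [e]
          refine (natDegree_C_mul_le _ _).trans ?_
          refine natDegree_mul_le.trans ?_
          have h3 : (f * r 0 * s 0).natDegree ≤ f.natDegree + A + A := by
            refine natDegree_mul_le.trans ?_
            have h4 : (f * r 0).natDegree ≤ f.natDegree + A :=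
              natDegree_mul_le.trans (by omega)
            omega
          omega
      omega
    have h00 := norm_poly f c hf0 hns _ _ _ hzero
    have hrest : ∑ k ∈ Finset.range J, (r (k + 1) + s (k + 1) * g +
        u (k + 1) * f ^ (2 * Q)) * X ^ (k * q) = 0 := by
      rw [h00.1, h00.2.1, h00.2.2] at h
      have h1 : (X : F[X]) ^ q *
          ∑ k ∈ Finset.range J, (r (k + 1) + s (k + 1) * g +
            u (k + 1) * f ^ (2 * Q)) * X ^ (k * q) = 0 := by
        linear_combination h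
      rcases mul_eq_zero.1 h1 with h2 | h2
      · exact absurd h2 (pow_ne_zero _ X_ne_zero)
      · exact h2
    have := ih (fun j => r (j + 1)) (fun j => s (j + 1)) (fun j => u (j + 1))
      (fun j => hr _) (fun j => hs _) (fun j => hu _) hrest
    intro j hj
    rcases j with _ | j
    · exact h00
    · exact this j (by omega)

/-- the core of Stepanov's method, cubic case -/
theorem core3 [Fintype F] [DecidableEq F] (f : F[X]) (hd : 1 ≤ f.natDegree) (hf0 : f.eval 0 ≠ 0)
    (hns : ∀ (c : F) (h : F[X]), f ≠ C c * h ^ 3) (a : F) (ℓ J A Q : ℕ)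
    (hQ : 3 * Q + 1 = Fintype.card F) (hA : 3 * A + 2 * f.natDegree < Fintype.card F)
    (hℓ : ℓ ≤ Fintype.card F) (hJ : 1 ≤ J)
    (hdim : ∑ k ∈ Finset.range ℓ, (A + k * (f.natDegree - 1) + J) < 3 * (J * (A + 1))) :
    ℓ * (Finset.univ.filter fun x : F => f.eval x = 0 ∨ f.eval x ^ Q = a).card ≤
      ℓ * f.natDegree + 2 * Q * f.natDegree + A + (J - 1) * Fintype.card F := by
  set q := Fintype.card F with hq
  have hf : f ≠ 0 := by
    rintro rfl
    simp at hd
  let V := (Fin J → degreeLT F (A + 1)) × (Fin J → degreeLT F (A + 1)) ×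
    (Fin J → degreeLT F (A + 1))
  let W := (k : Fin ℓ) → (Fin (A + k * (f.natDegree - 1) + J) → F)
  let σ : ℕ → V →ₗ[F] F[X] := fun k => ∑ j : Fin J,
    (LinearMap.mulLeft F (X ^ (j : ℕ))) ∘ₗ
      ((T f ℓ k) ∘ₗ (degreeLT F (A + 1)).subtype ∘ₗ (LinearMap.proj j) ∘ₗ (LinearMap.fst F _ _) +
      a • ((T f (ℓ + Q) k) ∘ₗ (degreeLT F (A + 1)).subtype ∘ₗ (LinearMap.proj j) ∘ₗ
        (LinearMap.fst F _ _) ∘ₗ (LinearMap.snd F _ _)) +
      a ^ 2 • ((T f (ℓ + 2 * Q) k) ∘ₗ (degreeLT F (A + 1)).subtype ∘ₗ (LinearMap.proj j) ∘ₗ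
        (LinearMap.snd F _ _) ∘ₗ (LinearMap.snd F _ _)))
  have hσ : ∀ k (v : V), σ k v = ∑ j : Fin J, X ^ (j : ℕ) *
      (T f ℓ k (v.1 j : F[X]) + a • T f (ℓ + Q) k (v.2.1 j : F[X]) +
        a ^ 2 • T f (ℓ + 2 * Q) k (v.2.2 j : F[X])) := by
    intro k v
    simp only [σ, LinearMap.sum_apply, LinearMap.comp_apply, LinearMap.mulLeft_apply,
      LinearMap.add_apply, LinearMap.smul_apply, LinearMap.proj_apply, Submodule.subtype_apply]
    rfl
  let Φ : V →ₗ[F] W := LinearMap.pi fun k => LinearMap.pi fun i => (lcoeff F (i : ℕ)) ∘ₗ (σ k)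
  have hfin : Module.finrank F W < Module.finrank F V := by
    have h1 : Module.finrank F W = ∑ k ∈ Finset.range ℓ, (A + k * (f.natDegree - 1) + J) := by
      simp only [W]
      rw [Module.finrank_pi_fintype, Finset.sum_range]
      refine Finset.sum_congr rfl fun k _ => ?_
      simp
    have h2 : Module.finrank F (degreeLT F (A + 1)) = A + 1 := by
      rw [(degreeLTEquiv F (A + 1)).finrank_eq]
      simp
    have h3 : Module.finrank F V = 3 * (J * (A + 1)) := by
      simp only [V]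
      rw [Module.finrank_prod, Module.finrank_prod, Module.finrank_pi_fintype]
      simp only [h2, Finset.sum_const, Finset.card_univ, Fintype.card_fin, smul_eq_mul]
      ring
    rw [h1, h3]
    exact hdim
  have hker : LinearMap.ker Φ ≠ ⊥ := LinearMap.ker_ne_bot_of_finrank_lt hfin
  obtain ⟨v, hv, hv0⟩ := (Submodule.ne_bot_iff _).1 hker
  have hdegv : ∀ w : degreeLT F (A + 1), (w : F[X]).natDegree ≤ A := by
    intro w
    have := mem_degreeLT.1 w.2
    by_cases h0 : (w : F[X]) = 0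
    · rw [h0]; simp
    · exact Nat.lt_succ_iff.1 ((natDegree_lt_iff_degree_lt h0).2 this)
  have hσ0 : ∀ k < ℓ, σ k v = 0 := by
    intro k hk
    have h1 : (σ k v).natDegree ≤ A + k * (f.natDegree - 1) + (J - 1) := by
      rw [hσ]
      refine natDegree_sum_le_of_forall_le _ _ fun j _ => ?_
      refine natDegree_mul_le.trans ?_
      rw [natDegree_X_pow]
      have h2 : ∀ n, k ≤ n → ∀ w : degreeLT F (A + 1),
          (T f n k (w : F[X])).natDegree ≤ k * (f.natDegree - 1) + A := by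
        intro n hn w
        exact (natDegree_T_le f hd n k hn _).trans (by have := hdegv w; omega)
      have h4 : (T f ℓ k (v.1 j : F[X]) + a • T f (ℓ + Q) k (v.2.1 j : F[X]) +
          a ^ 2 • T f (ℓ + 2 * Q) k (v.2.2 j : F[X])).natDegree ≤
          k * (f.natDegree - 1) + A := by
        refine (natDegree_add_le _ _).trans (max_le ?_ ?_)
        · refine (natDegree_add_le _ _).trans (max_le (h2 ℓ hk.le _) ?_)
          exact (natDegree_smul_le _ _).trans (h2 (ℓ + Q) (by omega) _)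
        · exact (natDegree_smul_le _ _).trans (h2 (ℓ + 2 * Q) (by omega) _)
      have := j.2
      omega
    ext i
    by_cases hi : i < A + k * (f.natDegree - 1) + J
    · have h1 := congrFun (congrFun (LinearMap.mem_ker.1 hv) ⟨k, hk⟩) ⟨i, hi⟩
      simpa [Φ] using h1
    · rw [coeff_eq_zero_of_natDegree_lt (by omega)]
      simp
  -- the auxiliary polynomial
  set R : F[X] := ∑ j : Fin J, (f ^ ℓ * (v.1 j : F[X]) + f ^ (ℓ + Q) * (v.2.1 j : F[X]) +
    f ^ (ℓ + 2 * Q) * (v.2.2 j : F[X])) * X ^ ((j : ℕ) * q) with hR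
  have hR' : R = f ^ ℓ * ∑ j : Fin J, ((v.1 j : F[X]) + (v.2.1 j : F[X]) * f ^ Q +
      (v.2.2 j : F[X]) * f ^ (2 * Q)) * X ^ ((j : ℕ) * q) := by
    rw [hR, Finset.mul_sum]
    refine Finset.sum_congr rfl fun j _ => ?_
    rw [pow_add, pow_add]
    ring
  have hRne : R ≠ 0 := by
    intro hR0
    rw [hR'] at hR0
    have h1 := (mul_eq_zero.1 hR0).resolve_left (pow_ne_zero _ hf)
    let r : ℕ → F[X] := fun j => if h : j < J then (v.1 ⟨j, h⟩ : F[X]) else 0
    let s : ℕ → F[X] := fun j => if h : j < J then (v.2.1 ⟨j, h⟩ : F[X]) else 0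
    let u : ℕ → F[X] := fun j => if h : j < J then (v.2.2 ⟨j, h⟩ : F[X]) else 0
    have h2 := eq_zero_of_sum3 f hf0 hns A Q hQ hA J r s u
      (by
        intro j
        simp only [r]
        split_ifs
        · exact hdegv _
        · simp)
      (by
        intro j
        simp only [s]
        split_ifs
        · exact hdegv _
        · simp)
      (by
        intro j
        simp only [u]
        split_ifs
        · exact hdegv _
        · simp)
      (by
        rw [Finset.sum_range]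
        rw [← h1]
        refine Finset.sum_congr rfl fun j _ => ?_
        simp [r, s, u, hq])
    apply hv0
    refine Prod.ext ?_ (Prod.ext ?_ ?_)
    · funext j
      have := (h2 j j.2).1
      simp only [r, j.2, dite_true] at this
      exact Subtype.ext this
    · funext j
      have := (h2 j j.2).2.1
      simp only [s, j.2, dite_true] at this
      exact Subtype.ext this
    · funext j
      have := (h2 j j.2).2.2
      simp only [u, j.2, dite_true] at this
      exact Subtype.ext this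
  have hdegR : R.natDegree ≤ ℓ * f.natDegree + 2 * Q * f.natDegree + A + (J - 1) * q := by
    rw [hR]
    refine natDegree_sum_le_of_forall_le _ _ fun j _ => ?_
    refine natDegree_mul_le.trans ?_
    rw [natDegree_X_pow]
    have h1 : (f ^ ℓ * (v.1 j : F[X]) + f ^ (ℓ + Q) * (v.2.1 j : F[X]) +
        f ^ (ℓ + 2 * Q) * (v.2.2 j : F[X])).natDegree ≤
        ℓ * f.natDegree + 2 * Q * f.natDegree + A := by
      refine (natDegree_add_le _ _).trans (max_le ?_ ?_)
      · refine (natDegree_add_le _ _).trans (max_le ?_ ?_)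
        · refine natDegree_mul_le.trans ?_
          rw [natDegree_pow]
          have := hdegv (v.1 j)
          nlinarith [Nat.zero_le (2 * Q * f.natDegree)]
        · refine natDegree_mul_le.trans ?_
          rw [natDegree_pow, Nat.add_mul]
          have := hdegv (v.2.1 j)
          nlinarith [Nat.zero_le (Q * f.natDegree)]
      · refine natDegree_mul_le.trans ?_
        rw [natDegree_pow, Nat.add_mul]
        have := hdegv (v.2.2 j)
        omega
    have h2 : (j : ℕ) * q ≤ (J - 1) * q := Nat.mul_le_mul_right _ (by have := j.2; omega)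
    omega
  have hvan : ∀ x : F, (f.eval x = 0 ∨ f.eval x ^ Q = a) → (X - C x) ^ ℓ ∣ R := by
    intro x hx
    by_cases hx0 : f.eval x = 0
    · rw [hR']
      exact Dvd.dvd.mul_right (pow_dvd_pow_of_dvd (dvd_iff_isRoot.2 hx0) ℓ) _
    · have hxa := hx.resolve_left hx0
      set R₁ : F[X] := ∑ j : Fin J, (x ^ (j : ℕ)) •
        (f ^ ℓ * (v.1 j : F[X]) + f ^ (ℓ + Q) * (v.2.1 j : F[X]) +
          f ^ (ℓ + 2 * Q) * (v.2.2 j : F[X])) with hR₁
      have h1 : (X - C x) ^ ℓ ∣ R - R₁ := by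
        rw [hR, hR₁, ← Finset.sum_sub_distrib]
        refine Finset.dvd_sum fun j _ => ?_
        rw [smul_eq_C_mul, mul_comm (C (x ^ (j : ℕ))), ← mul_sub]
        refine Dvd.dvd.mul_left ?_ _
        have h2 : (X : F[X]) ^ q - C x = (X - C x) ^ q := by
          obtain ⟨p, hp⟩ := CharP.exists F
          have := hp
          have : Fact p.Prime := ⟨CharP.char_is_prime F p⟩
          obtain ⟨n, -, hn⟩ := FiniteField.card F p
          have h3 := sub_pow_char_pow (p := p) (X : F[X]) (C x) (n : ℕ)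
          rw [hq]
          rw [← hn, ← C_pow, FiniteField.pow_card] at h3
          exact h3.symm
        have h3 : (X : F[X]) ^ q - C x ∣ X ^ ((j : ℕ) * q) - C (x ^ (j : ℕ)) := by
          rw [mul_comm, pow_mul, C_pow]
          exact sub_dvd_pow_sub_pow _ _ _
        rw [h2] at h3
        exact (pow_dvd_pow _ hℓ).trans h3
      have h2 : (X - C x) ^ ℓ ∣ R₁ := by
        rw [X_sub_C_pow_dvd_iff, X_pow_dvd_iff]
        intro k hk
        have h3 : (R₁.comp (X + C x)).coeff k = (taylor x R₁).coeff k := by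
          rw [taylor_apply]
        rw [h3, taylor_coeff, hR₁, map_sum]
        simp only [map_smul, map_add, eval_finsetSum]
        have h4 : ∀ j : Fin J, eval x (x ^ (j : ℕ) • (hasseDeriv k (f ^ ℓ * (v.1 j : F[X])) +
            hasseDeriv k (f ^ (ℓ + Q) * (v.2.1 j : F[X])) +
            hasseDeriv k (f ^ (ℓ + 2 * Q) * (v.2.2 j : F[X])))) =
            eval x f ^ (ℓ - k) * eval x (X ^ (j : ℕ) *
              (T f ℓ k (v.1 j : F[X]) + a • T f (ℓ + Q) k (v.2.1 j : F[X]) +
                a ^ 2 • T f (ℓ + 2 * Q) k (v.2.2 j : F[X]))) := by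
          intro j
          rw [← T_spec f ℓ k hk.le, ← T_spec f (ℓ + Q) k (by omega),
            ← T_spec f (ℓ + 2 * Q) k (by omega)]
          have h5 : ℓ + Q - k = (ℓ - k) + Q := by omega
          have h6 : ℓ + 2 * Q - k = (ℓ - k) + (Q + Q) := by omega
          rw [h5, h6]
          simp only [eval_smul, eval_add, eval_mul, eval_pow, eval_X, smul_eq_mul, pow_add, hxa]
          ring
        rw [Finset.sum_congr rfl fun j _ => h4 j, ← Finset.mul_sum, ← eval_finsetSum, ← hσ,
          hσ0 k hk, eval_zero, mul_zero]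
      have h3 := dvd_add h1 h2
      rwa [sub_add_cancel] at h3
  have hprod : ∏ x ∈ Finset.univ.filter (fun x : F => f.eval x = 0 ∨ f.eval x ^ Q = a),
      (X - C x) ^ ℓ ∣ R := by
    refine Finset.prod_dvd_of_coprime ?_ ?_
    · intro x _ y _ hxy
      exact (isCoprime_X_sub_C_of_isUnit_sub (sub_ne_zero.2 hxy).isUnit).pow
    · intro x hx
      exact hvan x (Finset.mem_filter.1 hx).2
  have h1 := natDegree_le_of_dvd hprod hRne
  rw [natDegree_prod_of_monic _ _ fun x _ => (monic_X_sub_C x).pow ℓ] at h1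
  simp only [natDegree_pow, natDegree_X_sub_C, mul_one, Finset.sum_const, smul_eq_mul] at h1
  rw [mul_comm ℓ]
  exact h1.trans hdegR

/-- The bound in the case `q = (3 t + 2) ^ 2`, for degrees at most `9`. -/
theorem card_le3 [Fintype F] [DecidableEq F] (f : F[X]) (hd : 1 ≤ f.natDegree)
    (hd9 : f.natDegree ≤ 9) (hf0 : f.eval 0 ≠ 0)
    (hns : ∀ (c : F) (h : F[X]), f ≠ C c * h ^ 3) (a : F) (Q t : ℕ) (ht : 100 ≤ t)
    (hq : Fintype.card F = (3 * t + 2) ^ 2) (hQ : 3 * Q + 1 = Fintype.card F) :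
    3 * (Finset.univ.filter fun x : F => f.eval x = 0 ∨ f.eval x ^ Q = a).card ≤
      (3 * t + 2) ^ 2 + 300 * t := by
  set N := (Finset.univ.filter fun x : F => f.eval x = 0 ∨ f.eval x ^ Q = a).card with hN
  set d := f.natDegree with hdd
  obtain ⟨P, hP⟩ : ∃ P : ℕ, P = t * t := ⟨_, rfl⟩
  have hPt : 100 * t ≤ P := by rw [hP]; exact Nat.mul_le_mul_right t ht
  have hsq : (3 * t + 2) ^ 2 = 9 * P + 12 * t + 4 := by rw [hP]; ring
  have hQ3 : Q = 3 * P + 4 * t + 1 := by
    rw [hq, hsq] at hQ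
    omega
  obtain ⟨A, hA⟩ : ∃ A : ℕ, A + 8 = 3 * P + 4 * t := ⟨3 * P + 4 * t - 8, by omega⟩
  obtain ⟨e, he⟩ := Nat.exists_eq_add_of_le hd
  have he' : d - 1 = e := by omega
  have he9 : e ≤ 8 := by omega
  have hPz : (P : ℤ) = t * t := by exact_mod_cast hP
  have hPtz : (100 * t : ℤ) ≤ P := by exact_mod_cast hPt
  have ht' : (100 : ℤ) ≤ t := by exact_mod_cast ht
  have he0 : (0 : ℤ) ≤ e := by positivity
  have he9' : (e : ℤ) ≤ 8 := by exact_mod_cast he9
  have hAz : (A : ℤ) = 3 * P + 4 * t - 8 := by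
    have : (A : ℤ) + 8 = 3 * P + 4 * t := by exact_mod_cast hA
    linarith
  have heP : 0 ≤ (8 - (e : ℤ)) * P := mul_nonneg (by linarith) (by linarith)
  have het : 0 ≤ (8 - (e : ℤ)) * t := mul_nonneg (by linarith) (by linarith)
  have heP0 : 0 ≤ (e : ℤ) * P := mul_nonneg he0 (by linarith)
  have het0 : 0 ≤ (e : ℤ) * t := mul_nonneg he0 (by linarith)
  have hsum : ∀ n, 2 * ∑ k ∈ Finset.range n, (A + k * e + (t + d)) + n * e =
      2 * n * (A + (t + d)) + n * n * e := by
    intro n
    induction n with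
    | zero => simp
    | succ n ih =>
      rw [Finset.sum_range_succ, mul_add]
      have h1 : 2 * ∑ x ∈ Finset.range n, (A + x * e + (t + d)) + 2 * (A + n * e + (t + d)) +
          (n + 1) * e = (2 * ∑ x ∈ Finset.range n, (A + x * e + (t + d)) + n * e) +
          (2 * (A + n * e + (t + d)) + e) := by ring
      rw [h1, ih]
      ring
  have hdim : ∑ k ∈ Finset.range (3 * t), (A + k * (d - 1) + (t + d)) <
      3 * ((t + d) * (A + 1)) := by
    have h1 := hsum (3 * t)
    rw [he']
    have key : 2 * (3 * t) * (A + (t + d)) + (3 * t) * (3 * t) * e <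
        2 * (3 * ((t + d) * (A + 1))) := by
      rw [he]
      have goal : (2 * (3 * t) * (A + (t + (1 + e))) + (3 * t) * (3 * t) * e : ℤ) <
          2 * (3 * ((t + (1 + e)) * (A + 1))) := by
        have e1 : (2 * (3 * t) * (A + (t + (1 + e))) + (3 * t) * (3 * t) * e : ℤ) =
            6 * (t * A) + 6 * P + 6 * t + 6 * (e * t) + 9 * (e * P) := by
          rw [hPz]; ring
        have e2 : (2 * (3 * ((t + (1 + e)) * (A + 1))) : ℤ) =
            6 * (t * A) + 6 * t + 6 * A + 6 + 6 * (e * A) + 6 * e := by ring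
        have e3 : (e : ℤ) * A = 3 * (e * P) + 4 * (e * t) - 8 * e := by rw [hAz]; ring
        rw [e1, e2, e3, hAz]
        linarith
      exact_mod_cast goal
    omega
  have hmain := core3 f hd hf0 hns a (3 * t) (t + d) A Q hQ (by rw [hq, hsq]; omega)
    (by rw [hq, hsq]; omega) (by omega) hdim
  rw [hq, ← hN, ← hdd] at hmain
  have hJ1 : t + d - 1 = t + e := by omega
  rw [hJ1, he, hsq] at hmain
  by_contra hcon
  push Not at hcon
  rw [hsq] at hcon
  have h7 : (3 * t * N : ℤ) ≤
      3 * t * (1 + e) + 2 * Q * (1 + e) + A + (t + e) * (9 * P + 12 * t + 4) := by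
    exact_mod_cast hmain
  have hcon' : (9 * P + 12 * t + 4 + 300 * t + 1 : ℤ) ≤ 3 * N := by exact_mod_cast hcon
  have h5 : (t : ℤ) * (9 * P + 12 * t + 4 + 300 * t + 1) ≤ t * (3 * N) :=
    mul_le_mul_of_nonneg_left hcon' (by linarith)
  have hQz : (Q : ℤ) = 3 * P + 4 * t + 1 := by exact_mod_cast hQ3
  have e1 : (3 * t * (1 + e) + 2 * Q * (1 + e) + A + (t + e) * (9 * P + 12 * t + 4) : ℤ) =
      9 * (t * P) + 21 * P + 15 * (e * P) + 19 * t + 23 * (e * t) + 6 * e - 6 := by
    rw [hQz, hAz, hPz]; ring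
  have e2 : (t : ℤ) * (9 * P + 12 * t + 4 + 300 * t + 1) =
      9 * (t * P) + 312 * P + 5 * t := by
    rw [hPz]; ring
  rw [e1] at h7
  rw [e2] at h5
  have h8 : (3 * t * N : ℤ) = t * (3 * N) := by ring
  rw [h8] at h7
  linarith

end Pool.Agent.H759R3.Step3
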