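import Mathlib

/-!
# 3-tensors, restriction, and the finiteness of strict restriction chains below a tensor

Definitions for `MP_176834_co`, and the key lemma: below a fixed 3-tensor there is no infinite
strictly increasing chain for the restriction preorder.
-/

set_option autoImplicit false

universe u

namespace Pool.Agent.H759R3.Tensor

/-- A 3-tensor over `F`, of arbitrary format `n₁ × n₂ × n₃`, given by its coordinates. -/
structure T3 (F : Type u) where
  n₁ : ℕ
  n₂ : ℕ
  n₃ : ℕ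
  val : Fin n₁ → Fin n₂ → Fin n₃ → F

variable {F : Type u} [Field F]

/-- The action `(A ⊗ B ⊗ C) T` of three matrices on a tensor. -/
def act {a b c a' b' c' : ℕ} (A : Matrix (Fin a') (Fin a) F) (B : Matrix (Fin b') (Fin b) F)
    (C : Matrix (Fin c') (Fin c) F) (T : Fin a → Fin b → Fin c → F) :
    Fin a' → Fin b' → Fin c' → F :=
  fun i j k => ∑ i', ∑ j', ∑ k', A i i' * B j j' * C k k' * T i' j' k'

/-- Restriction: `S ≤ T` iff `S = (A ⊗ B ⊗ C) T` for some linear maps `A`, `B`, `C`. -/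
def Restricts (S T : T3 F) : Prop :=
  ∃ (A : Matrix (Fin S.n₁) (Fin T.n₁) F) (B : Matrix (Fin S.n₂) (Fin T.n₂) F)
    (C : Matrix (Fin S.n₃) (Fin T.n₃) F), S.val = act A B C T.val

/-- The unit tensor `⟨r⟩ = ∑ e_i ⊗ e_i ⊗ e_i`. -/
def unit (F : Type u) [Field F] (r : ℕ) : T3 F where
  n₁ := r
  n₂ := r
  n₃ := r
  val := fun i j k => if i = j ∧ j = k then 1 else 0

/-- The direct sum `S ⊕ T`: block-diagonal, in the three directions at once. -/
def dsum (S T : T3 F) : T3 F where
  n₁ := S.n₁ + T.n₁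
  n₂ := S.n₂ + T.n₂
  n₃ := S.n₃ + T.n₃
  val := fun i j k =>
    match finSumFinEquiv.symm i, finSumFinEquiv.symm j, finSumFinEquiv.symm k with
    | Sum.inl i, Sum.inl j, Sum.inl k => S.val i j k
    | Sum.inr i, Sum.inr j, Sum.inr k => T.val i j k
    | _, _, _ => 0

/-- The Kronecker product `S ⊠ T`. -/
def kron (S T : T3 F) : T3 F where
  n₁ := S.n₁ * T.n₁
  n₂ := S.n₂ * T.n₂
  n₃ := S.n₃ * T.n₃
  val := fun i j k =>
    S.val (finProdFinEquiv.symm i).1 (finProdFinEquiv.symm j).1 (finProdFinEquiv.symm k).1 *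
    T.val (finProdFinEquiv.symm i).2 (finProdFinEquiv.symm j).2 (finProdFinEquiv.symm k).2

/-- `f` is a point of the asymptotic spectrum: a restriction-monotone semiring homomorphism
from the semiring of 3-tensors to the nonnegative reals. -/
structure IsSpectral (f : T3 F → ℝ) : Prop where
  nonneg : ∀ T, 0 ≤ f T
  mono : ∀ S T, Restricts S T → f S ≤ f T
  map_zero : f (unit F 0) = 0
  map_one : f (unit F 1) = 1
  map_add : ∀ S T, f (dsum S T) = f S + f T
  map_mul : ∀ S T, f (kron S T) = f S * f T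

/-- Condition (a): a binary operation realising the pointwise maximum on the spectrum. -/
def CondA (F : Type u) [Field F] : Prop :=
  ∃ star : T3 F → T3 F → T3 F, ∀ f : T3 F → ℝ, IsSpectral f →
    ∀ S T, f (star S T) = max (f S) (f T)

/-- Condition (b): a restriction-increasing family `c_q` (`q ∈ ℚ`, `q ≥ 2`), a tensor `b` and
reals `1 < s < t` such that for every `lam ∈ [s, t]` some spectral point has `f (c_q) = q` for all
`q ≥ 2` and `f b = lam`. -/
def CondB (F : Type u) [Field F] : Prop :=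
  ∃ (c : ℚ → T3 F) (b : T3 F) (s t : ℝ), 1 < s ∧ s < t ∧
    (∀ q r : ℚ, 2 ≤ q → q ≤ r → Restricts (c q) (c r)) ∧
    ∀ lam : ℝ, s ≤ lam → lam ≤ t → ∃ f : T3 F → ℝ, IsSpectral f ∧
      (∀ q : ℚ, 2 ≤ q → f (c q) = (q : ℝ)) ∧ f b = lam

/-- The restriction preorder on 3-tensors over `F` is countably universal: every countable
preorder order-embeds into it. -/
def CountablyUniversal (F : Type u) [Field F] : Prop :=
  ∀ (P : Type) [Countable P] [Preorder P],
    ∃ φ : P → T3 F, ∀ x y : P, x ≤ y ↔ Restricts (φ x) (φ y)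

/-! ### The action -/

theorem act_act {a b c a' b' c' a'' b'' c'' : ℕ} (A : Matrix (Fin a') (Fin a) F)
    (B : Matrix (Fin b') (Fin b) F) (C : Matrix (Fin c') (Fin c) F)
    (A' : Matrix (Fin a'') (Fin a') F) (B' : Matrix (Fin b'') (Fin b') F)
    (C' : Matrix (Fin c'') (Fin c') F) (T : Fin a → Fin b → Fin c → F) :
    act A' B' C' (act A B C T) = act (A' * A) (B' * B) (C' * C) T := by
  funext i j k
  unfold act
  simp only [Matrix.mul_apply, Finset.mul_sum, Finset.sum_mul]
  -- both sides are sums over six indices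
  have h : ∀ g : Fin a' → Fin b' → Fin c' → Fin a → Fin b → Fin c → F,
      (∑ x, ∑ y, ∑ z, ∑ x', ∑ y', ∑ z', g x y z x' y' z') =
      ∑ x', ∑ y', ∑ z', ∑ z, ∑ y, ∑ x, g x y z x' y' z' := by
    intro g
    have e1 : (∑ x, ∑ y, ∑ z, ∑ x', ∑ y', ∑ z', g x y z x' y' z') =
        ∑ p : (Fin a' × Fin b' × Fin c') × (Fin a × Fin b × Fin c),
          g p.1.1 p.1.2.1 p.1.2.2 p.2.1 p.2.2.1 p.2.2.2 := by
      simp only [Fintype.sum_prod_type]
    have e2 : (∑ x', ∑ y', ∑ z', ∑ z, ∑ y, ∑ x, g x y z x' y' z') =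
        ∑ p : (Fin a × Fin b × Fin c) × (Fin c' × Fin b' × Fin a'),
          g p.2.2.2 p.2.2.1 p.2.1 p.1.1 p.1.2.1 p.1.2.2 := by
      simp only [Fintype.sum_prod_type]
    rw [e1, e2]
    refine Finset.sum_bij' (fun p _ => (p.2, (p.1.2.2, p.1.2.1, p.1.1)))
      (fun p _ => ((p.2.2.2, p.2.2.1, p.2.1), p.1)) ?_ ?_ ?_ ?_ ?_ <;> simp
  have h2 := h (fun x y z x' y' z' =>
    A' i x * B' j y * C' k z * (A x x' * B y y' * C z z' * T x' y' z'))
  rw [h2]
  refine Finset.sum_congr rfl fun x' _ => Finset.sum_congr rfl fun y' _ =>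
    Finset.sum_congr rfl fun z' _ => Finset.sum_congr rfl fun z _ =>
    Finset.sum_congr rfl fun y _ => Finset.sum_congr rfl fun x _ => ?_
  ring

theorem act_one {a b c : ℕ} (T : Fin a → Fin b → Fin c → F) :
    act (1 : Matrix (Fin a) (Fin a) F) (1 : Matrix (Fin b) (Fin b) F)
      (1 : Matrix (Fin c) (Fin c) F) T = T := by
  funext i j k
  unfold act
  rw [Finset.sum_eq_single i, Finset.sum_eq_single j, Finset.sum_eq_single k]
  · simp
  · intro x _ hx; simp [Matrix.one_apply, hx.symm]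
  · simp
  · intro x _ hx; simp [Matrix.one_apply, hx.symm]
  · simp
  · intro x _ hx; simp [Matrix.one_apply, hx.symm]
  · simp

theorem Restricts.refl (T : T3 F) : Restricts T T := ⟨1, 1, 1, (act_one _).symm⟩

theorem Restricts.trans {S T U : T3 F} (h1 : Restricts S T) (h2 : Restricts T U) :
    Restricts S U := by
  obtain ⟨A, B, C, h⟩ := h1
  obtain ⟨A', B', C', h'⟩ := h2
  exact ⟨A * A', B * B', C * C', by rw [h, h', act_act]⟩

/-- rank factorisation -/
theorem factor {n a : ℕ} (A : Matrix (Fin n) (Fin a) F) :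
    ∃ (a' : ℕ) (A1 : Matrix (Fin a') (Fin a) F) (A2 : Matrix (Fin n) (Fin a') F)
      (L : Matrix (Fin a') (Fin n) F), a' ≤ a ∧ A = A2 * A1 ∧ L * A2 = 1 ∧
      (a' = a → ∃ L' : Matrix (Fin a) (Fin n) F, L' * A = 1) := by
  classical
  let f : (Fin a → F) →ₗ[F] (Fin n → F) := Matrix.toLin' A
  let W := LinearMap.range f
  let a' := Module.finrank F W
  let e : W ≃ₗ[F] (Fin a' → F) := (Module.finBasis F W).equivFun
  let f1 : (Fin a → F) →ₗ[F] (Fin a' → F) := e.toLinearMap ∘ₗ f.rangeRestrict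
  let f2 : (Fin a' → F) →ₗ[F] (Fin n → F) := W.subtype ∘ₗ e.symm.toLinearMap
  have hf : f = f2 ∘ₗ f1 := by
    ext x
    simp [f1, f2]
  have hinj : LinearMap.ker f2 = ⊥ := by
    rw [LinearMap.ker_eq_bot]
    exact Subtype.val_injective.comp e.symm.injective
  obtain ⟨l, hl⟩ := f2.exists_leftInverse_of_injective hinj
  have ha' : a' ≤ a := by
    have := LinearMap.finrank_range_le f
    simpa using this
  refine ⟨a', LinearMap.toMatrix' f1, LinearMap.toMatrix' f2, LinearMap.toMatrix' l, ha', ?_, ?_,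
    ?_⟩
  · rw [← LinearMap.toMatrix'_comp, ← hf]
    exact (LinearMap.toMatrix'_toLin' A).symm
  · rw [← LinearMap.toMatrix'_comp, hl, LinearMap.toMatrix'_id]
  · intro haa
    have hinj' : LinearMap.ker f = ⊥ := by
      have h := LinearMap.finrank_range_add_finrank_ker f
      rw [Module.finrank_fin_fun] at h
      have h0 : Module.finrank F (LinearMap.ker f) = 0 := by
        have : Module.finrank F (LinearMap.range f) = a := haa
        omega
      exact Submodule.finrank_eq_zero.1 h0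
    obtain ⟨l', hl'⟩ := f.exists_leftInverse_of_injective hinj'
    refine ⟨LinearMap.toMatrix' l', ?_⟩
    have : A = LinearMap.toMatrix' f := (LinearMap.toMatrix'_toLin' A).symm
    rw [this, ← LinearMap.toMatrix'_comp, hl', LinearMap.toMatrix'_id]

/-- the size of a tensor -/
def size (T : T3 F) : ℕ := T.n₁ + T.n₂ + T.n₃

/-- sizes of the tensors equivalent to `T` -/
def sizes (T : T3 F) : Set ℕ :=
  {s | ∃ T' : T3 F, Restricts T' T ∧ Restricts T T' ∧ size T' = s}

theorem sizes_nonempty (T : T3 F) : (sizes T).Nonempty :=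
  ⟨size T, T, Restricts.refl T, Restricts.refl T, rfl⟩

/-- the least size of a tensor equivalent to `T` -/
noncomputable def msize (T : T3 F) : ℕ := sInf (sizes T)

/-- a strict restriction lowers the least size -/
theorem msize_lt {S T : T3 F} (h : Restricts S T) (hn : ¬ Restricts T S) :
    msize S < msize T := by
  obtain ⟨T', h1, h2, h3⟩ := Nat.sInf_mem (sizes_nonempty T)
  have hST' : Restricts S T' := h.trans h2
  obtain ⟨A, B, C, hS⟩ := hST'
  obtain ⟨a, A1, A2, LA, ha, hA, hLA, hA'⟩ := factor A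
  obtain ⟨b, B1, B2, LB, hb, hB, hLB, hB'⟩ := factor B
  obtain ⟨c, C1, C2, LC, hc, hC, hLC, hC'⟩ := factor C
  let U : T3 F := ⟨a, b, c, act A1 B1 C1 T'.val⟩
  have hSU : S.val = act A2 B2 C2 U.val := by
    rw [hS]
    show _ = act A2 B2 C2 (act A1 B1 C1 T'.val)
    rw [act_act, ← hA, ← hB, ← hC]
  have hUS : U.val = act LA LB LC S.val := by
    rw [hSU, act_act, hLA, hLB, hLC, act_one]
  have hU : size U ∈ sizes S := ⟨U, ⟨LA, LB, LC, hUS⟩, ⟨A2, B2, C2, hSU⟩, rfl⟩
  have hle : msize S ≤ a + b + c := Nat.sInf_le hU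
  have hT' : msize T = T'.n₁ + T'.n₂ + T'.n₃ := h3.symm
  by_contra hcon
  have h4 : a = T'.n₁ := by omega
  have h5 : b = T'.n₂ := by omega
  have h6 : c = T'.n₃ := by omega
  obtain ⟨LA', hLA'⟩ := hA' h4
  obtain ⟨LB', hLB'⟩ := hB' h5
  obtain ⟨LC', hLC'⟩ := hC' h6
  have hT'S : Restricts T' S := ⟨LA', LB', LC', by rw [hS, act_act, hLA', hLB', hLC', act_one]⟩
  exact hn (h2.trans hT'S)

theorem msize_mono {S T : T3 F} (h : Restricts S T) : msize S ≤ msize T := by
  by_cases hn : Restricts T S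
  · unfold msize
    apply le_of_eq
    congr 1
    ext s
    constructor
    · rintro ⟨U, h1, h2, h3⟩
      exact ⟨U, h1.trans h, hn.trans h2, h3⟩
    · rintro ⟨U, h1, h2, h3⟩
      exact ⟨U, h1.trans hn, h.trans h2, h3⟩
  · exact (msize_lt h hn).le

/-- There is no infinite strictly increasing restriction chain below a fixed tensor. -/
theorem no_bounded_chain (φ : ℕ → T3 F) (T : T3 F) (h1 : ∀ n, Restricts (φ n) (φ (n + 1)))
    (h2 : ∀ n, ¬ Restricts (φ (n + 1)) (φ n)) (h3 : ∀ n, Restricts (φ n) T) : False := by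
  have hm : ∀ n, n ≤ msize (φ n) := by
    intro n
    induction n with
    | zero => exact Nat.zero_le _
    | succ n ih =>
      have := msize_lt (h1 n) (h2 n)
      omega
  have h4 := hm (msize T + 1)
  have h5 := msize_mono (h3 (msize T + 1))
  omega

end Pool.Agent.H759R3.Tensor
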